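import Pool.Agent.R318.ST.Fld

/-!
# The number of the points of the surface `a f(x₀, x₁) = g(x₂, x₃)` over a finite field
-/

set_option autoImplicit false
set_option linter.all false

open Polynomial Finset

namespace Pool.Agent.U437.JS

/-- the value of the binary form of degree `n` attached to the polynomial `f` -/
noncomputable def bf {R : Type} [CommRing R] (n : ℕ) (f : R[X]) (x y : R) : R :=
  ∑ j ∈ range (n + 1), f.coeff j * x ^ j * y ^ (n - j)

theorem bf_map {R S : Type} [CommRing R] [CommRing S] (φ : R →+* S) (n : ℕ) (f : R[X]) (x y : R) :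
    bf n (f.map φ) (φ x) (φ y) = φ (bf n f x y) := by
  unfold bf
  rw [map_sum]
  refine sum_congr rfl fun j _ => ?_
  rw [coeff_map, map_mul, map_mul, map_pow, map_pow]

theorem bf_smul {R : Type} [CommRing R] (n : ℕ) (f : R[X]) (c x y : R) :
    bf n f (c * x) (c * y) = c ^ n * bf n f x y := by
  unfold bf
  rw [mul_sum]
  refine sum_congr rfl fun j hj => ?_
  have h : j + (n - j) = n := by
    have := mem_range.1 hj
    omega
  calc f.coeff j * (c * x) ^ j * (c * y) ^ (n - j) =
      c ^ (j + (n - j)) * (f.coeff j * x ^ j * y ^ (n - j)) := by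
        rw [mul_pow, mul_pow, pow_add]
        ring
    _ = _ := by rw [h]

theorem bf_one {R : Type} [CommRing R] {n : ℕ} {f : R[X]} (hf : f.natDegree ≤ n) (x : R) :
    bf n f x 1 = f.eval x := by
  unfold bf
  rw [eval_eq_sum_range' (Nat.lt_succ_of_le hf)]
  refine sum_congr rfl fun j _ => ?_
  rw [one_pow, mul_one]

theorem bf_zero {R : Type} [CommRing R] {n : ℕ} {f : R[X]} (hm : f.Monic) (hf : f.natDegree = n)
    (x : R) : bf n f x 0 = x ^ n := by
  unfold bf
  rw [sum_eq_single n]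
  · have h : f.coeff n = 1 := by
      rw [← hf]
      exact hm
    rw [h, Nat.sub_self, pow_zero, mul_one, one_mul]
  · intro j hj hne
    have h : n - j ≠ 0 := by
      have := mem_range.1 hj
      omega
    rw [zero_pow h, mul_zero]
  · intro h
    exact absurd (mem_range.2 (Nat.lt_succ_self n)) h

theorem bf_zz {R : Type} [CommRing R] {n : ℕ} (hn : n ≠ 0) (f : R[X]) : bf n f 0 0 = 0 := by
  have h := bf_smul n f 0 0 0
  rw [mul_zero, zero_pow hn, zero_mul] at h
  exact h

section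
variable {F : Type} [Field F]

/-- the value at a point of the projective line -/
noncomputable def pv (f : F[X]) : Option F → F
  | none => 1
  | some x => f.eval x

open Classical in
/-- nonzero vectors of the plane -/
noncomputable def nzEquiv (F : Type) [Field F] : {p : F × F // p ≠ 0} ≃ Fˣ × Option F where
  toFun p := if h : p.1.2 = 0 then (Units.mk0 p.1.1 (fun h1 => p.2 (Prod.ext h1 h)), none) else
    (Units.mk0 p.1.2 h, some (p.1.1 / p.1.2))
  invFun w := ⟨match w.2 with
    | none => ((w.1 : F), 0)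
    | some x => (w.1 * x, (w.1 : F)), by
      rcases w with ⟨u, _ | x⟩
      · intro h
        exact u.ne_zero (congrArg Prod.fst h)
      · intro h
        exact u.ne_zero (congrArg Prod.snd h)⟩
  left_inv p := by
    rcases p with ⟨⟨x, y⟩, h⟩
    by_cases hy : y = 0
    · subst hy
      apply Subtype.ext
      simp
    · apply Subtype.ext
      simp only [hy, ↓reduceDIte, Units.val_mk0]
      rw [mul_div_cancel₀ _ hy]
  right_inv w := by
    rcases w with ⟨u, _ | x⟩
    · simp
    · simp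

theorem bf_nz {n : ℕ} {f : F[X]} (hm : f.Monic) (hf : f.natDegree = n) (w : Fˣ × Option F) :
    bf n f ((nzEquiv F).symm w).1.1 ((nzEquiv F).symm w).1.2 = (w.1 : F) ^ n * pv f w.2 := by
  rcases w with ⟨u, _ | x⟩
  · show bf n f (u : F) 0 = (u : F) ^ n * 1
    rw [bf_zero hm hf, mul_one]
  · show bf n f ((u : F) * x) (u : F) = (u : F) ^ n * f.eval x
    conv_lhs => rw [show (u : F) = (u : F) * 1 by rw [mul_one]]
    rw [mul_assoc, one_mul, bf_smul, bf_one hf.le]

/-- the number of the roots -/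
noncomputable def nr (f : F[X]) : ℕ := Nat.card {x : F // f.eval x = 0}

variable [Fintype F]

/-- the sum over the projective line -/
noncomputable def mm (f : F[X]) (χ : MulChar F ℂ) : ℂ := 1 + ∑ x : F, χ (f.eval x)

theorem mm_eq (f : F[X]) (χ : MulChar F ℂ) : mm f χ = ∑ o : Option F, χ (pv f o) := by
  rw [Fintype.sum_option]
  show 1 + _ = χ (1 : F) + _
  rw [map_one]
  rfl

open Classical in
theorem nr_sum (f : F[X]) : (nr f : ℂ) = ∑ o : Option F, if pv f o = 0 then (1 : ℂ) else 0 := by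
  rw [Fintype.sum_option]
  have h0 : pv f (none : Option F) ≠ 0 := one_ne_zero
  rw [if_neg h0, zero_add]
  unfold nr
  rw [Nat.card_eq_fintype_card, Fintype.card_subtype, card_filter]
  push_cast
  rfl

theorem mm_one (f : F[X]) : mm f (1 : MulChar F ℂ) = (Fintype.card F : ℂ) + 1 - nr f := by
  classical
  rw [mm_eq, nr_sum]
  have h : ∀ o : Option F, (1 : MulChar F ℂ) (pv f o) = 1 - if pv f o = 0 then (1 : ℂ) else 0 := by
    intro o
    by_cases h : pv f o = 0
    · rw [if_pos h, h, sub_self]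
      exact MulChar.map_zero _
    · rw [if_neg h, sub_zero]
      exact MulChar.one_apply (isUnit_iff_ne_zero.2 h)
  rw [sum_congr rfl fun o _ => h o, sum_sub_distrib, sum_const, card_univ, Fintype.card_option,
    nsmul_eq_mul, mul_one]
  push_cast
  rfl

open Classical in
theorem sum_mc (a : F) : letI := Fintype.ofFinite (MulChar F ℂ)
    ∑ χ : MulChar F ℂ, χ a = if a = 1 then (Fintype.card Fˣ : ℂ) else 0 := by
  letI := Fintype.ofFinite (MulChar F ℂ)
  split_ifs with h
  · subst h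
    simp only [map_one, Finset.sum_const, Finset.card_univ, nsmul_eq_mul, mul_one]
    rw [← Nat.card_eq_fintype_card, MulChar.card_eq_card_units_of_hasEnoughRootsOfUnity,
      Nat.card_eq_fintype_card]
  · obtain ⟨χ0, h0⟩ := MulChar.exists_apply_ne_one_of_hasEnoughRootsOfUnity F ℂ h
    have h1 : ∑ χ : MulChar F ℂ, χ a = χ0 a * ∑ χ : MulChar F ℂ, χ a := by
      rw [Finset.mul_sum, ← Equiv.sum_comp (Equiv.mulLeft χ0) (fun χ : MulChar F ℂ => χ a)]
      exact Finset.sum_congr rfl fun χ _ => MulChar.mul_apply _ _ _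
    have h2 : (χ0 a - 1) * ∑ χ : MulChar F ℂ, χ a = 0 := by linear_combination -h1
    exact (mul_eq_zero.1 h2).resolve_left (sub_ne_zero.2 h0)

open Classical in
/-- the characters with `χ^n = 1` -/
noncomputable def Gn (F : Type) [Field F] [Fintype F] (n : ℕ) : Finset (MulChar F ℂ) :=
  letI := Fintype.ofFinite (MulChar F ℂ)
  univ.filter (fun χ => χ ^ n = 1)

theorem mem_Gn {n : ℕ} {χ : MulChar F ℂ} : χ ∈ Gn F n ↔ χ ^ n = 1 := by
  classical
  letI := Fintype.ofFinite (MulChar F ℂ)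
  unfold Gn
  simp

theorem card_Gn {n : ℕ} (hn : 0 < n) : (Gn F n).card ≤ n := by
  classical
  letI := Fintype.ofFinite (MulChar F ℂ)
  have : IsCyclic (MulChar F ℂ) := by
    obtain ⟨e⟩ := MulChar.mulEquiv_units F ℂ
    exact isCyclic_of_surjective e.symm e.symm.surjective
  have h1 := IsCyclic.card_pow_eq_one_le (α := MulChar F ℂ) hn
  unfold Gn
  convert h1

open Classical in
theorem sum_units_eq (χ : MulChar F ℂ) : ∑ ν : Fˣ, χ (ν : F) = ∑ x : F, χ x := by
  classical
  rw [← Finset.sum_filter_add_sum_filter_not (univ : Finset F) (fun x => x = 0)]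
  rw [Finset.filter_eq' univ (0 : F), if_pos (mem_univ _), sum_singleton, MulChar.map_zero, zero_add]
  refine Finset.sum_bij (fun (ν : Fˣ) _ => (ν : F)) (fun ν _ => ?_) (fun a _ b _ h => Units.ext h)
    (fun b hb => ?_) (fun ν _ => rfl)
  · rw [mem_filter]
    exact ⟨mem_univ _, ν.ne_zero⟩
  · exact ⟨Units.mk0 b (mem_filter.1 hb).2, mem_univ _, rfl⟩

open Classical in
/-- the number of the solutions of `c = ν^n d` -/
theorem pow_count {n : ℕ} (hn : n ≠ 0) (c d : F) :
    (∑ ν : Fˣ, if c = (ν : F) ^ n * d then (1 : ℂ) else 0) =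
      (∑ χ ∈ Gn F n, χ c * χ⁻¹ d) +
        (Fintype.card Fˣ : ℂ) * ((if c = 0 then 1 else 0) * (if d = 0 then 1 else 0)) := by
  letI := Fintype.ofFinite (MulChar F ℂ)
  by_cases hc : c = 0
  · subst hc
    rw [if_pos rfl]
    have h1 : ∑ χ ∈ Gn F n, χ (0 : F) * χ⁻¹ d = 0 :=
      sum_eq_zero fun χ _ => by rw [MulChar.map_zero, zero_mul]
    rw [h1, zero_add, one_mul]
    by_cases hd : d = 0
    · subst hd
      rw [if_pos rfl, mul_one]
      have h2 : ∀ ν ∈ (univ : Finset Fˣ), (if (0 : F) = (ν : F) ^ n * 0 then (1 : ℂ) else 0) = 1 :=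
        fun ν _ => by rw [mul_zero, if_pos rfl]
      rw [sum_congr rfl h2, sum_const, card_univ, nsmul_eq_mul, mul_one]
    · rw [if_neg hd, mul_zero]
      refine sum_eq_zero fun ν _ => ?_
      rw [if_neg]
      exact (mul_ne_zero (pow_ne_zero _ ν.ne_zero) hd).symm
  · rw [if_neg hc, zero_mul, mul_zero, add_zero]
    by_cases hd : d = 0
    · subst hd
      have h1 : ∑ χ ∈ Gn F n, χ c * χ⁻¹ (0 : F) = 0 :=
        sum_eq_zero fun χ _ => by rw [MulChar.map_zero, mul_zero]
      rw [h1]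
      refine sum_eq_zero fun ν _ => ?_
      rw [mul_zero, if_neg hc]
    · have hq : (Fintype.card Fˣ : ℂ) ≠ 0 := by exact_mod_cast Fintype.card_ne_zero
      apply mul_left_cancel₀ hq
      rw [mul_sum, mul_sum]
      have e1 : ∀ ν : Fˣ, (Fintype.card Fˣ : ℂ) * (if c = (ν : F) ^ n * d then (1 : ℂ) else 0) =
          ∑ χ : MulChar F ℂ, χ c * χ⁻¹ d * (χ ^ n) ((ν⁻¹ : Fˣ) : F) := by
        intro ν
        have h2 := sum_mc (c * d⁻¹ * ((ν⁻¹ : Fˣ) : F) ^ n)
        have h3 : (c * d⁻¹ * ((ν⁻¹ : Fˣ) : F) ^ n = 1) ↔ c = (ν : F) ^ n * d := by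
          have hν : (ν : F) ≠ 0 := ν.ne_zero
          rw [Units.val_inv_eq_inv_val, inv_pow]
          field_simp
        have h4 : ∀ χ : MulChar F ℂ, χ (c * d⁻¹ * ((ν⁻¹ : Fˣ) : F) ^ n) =
            χ c * χ⁻¹ d * (χ ^ n) ((ν⁻¹ : Fˣ) : F) := by
          intro χ
          rw [map_mul, map_mul, map_pow, MulChar.inv_apply', MulChar.pow_apply' χ hn]
        rw [sum_congr rfl fun χ _ => (h4 χ).symm, h2]
        by_cases h5 : c = (ν : F) ^ n * d
        · rw [if_pos h5, if_pos (h3.2 h5), mul_one]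
        · rw [if_neg h5, if_neg (fun h => h5 (h3.1 h)), mul_zero]
      rw [sum_congr rfl fun ν _ => e1 ν, sum_comm]
      have e2 : ∀ χ : MulChar F ℂ, ∑ ν : Fˣ, χ c * χ⁻¹ d * (χ ^ n) ((ν⁻¹ : Fˣ) : F) =
          if χ ^ n = 1 then (Fintype.card Fˣ : ℂ) * (χ c * χ⁻¹ d) else 0 := by
        intro χ
        rw [← mul_sum]
        have h6 : ∑ ν : Fˣ, (χ ^ n) ((ν⁻¹ : Fˣ) : F) = ∑ ν : Fˣ, (χ ^ n) (ν : F) :=
          Equiv.sum_comp (Equiv.inv Fˣ) (fun ν : Fˣ => (χ ^ n) (ν : F))
        rw [h6, sum_units_eq]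
        split_ifs with h7
        · have h8 : ∑ x : F, (1 : MulChar F ℂ) x = (Fintype.card Fˣ : ℂ) := by
            convert MulChar.sum_one_eq_card_units (R := F) (R' := ℂ)
          rw [h7, h8]
          ring
        · rw [MulChar.sum_eq_zero_of_ne_one h7, mul_zero]
      rw [sum_congr rfl fun χ _ => e2 χ, ← sum_filter]
      unfold Gn
      rfl

/-- the number of the nonzero solutions of `a f(x₀, x₁) = g(x₂, x₃)` -/
noncomputable def sol {F : Type} [Field F] (n : ℕ) (a : F) (f g : F[X]) : ℕ :=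
  Nat.card {x : (F × F) × (F × F) // x ≠ 0 ∧ a * bf n f x.1.1 x.1.2 = bf n g x.2.1 x.2.2}

open Classical in
theorem sol_sum {n : ℕ} (hn : n ≠ 0) (a : F) (f g : F[X]) : (sol n a f g : ℂ) + 1 =
    ∑ P : F × F, ∑ Q : F × F, if a * bf n f P.1 P.2 = bf n g Q.1 Q.2 then (1 : ℂ) else 0 := by
  have h0 : a * bf n f 0 0 = bf n g (0 : F) 0 := by rw [bf_zz hn, bf_zz hn, mul_zero]
  rw [← Fintype.sum_prod_type' (fun P Q : F × F =>
    if a * bf n f P.1 P.2 = bf n g Q.1 Q.2 then (1 : ℂ) else 0)]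
  rw [← Finset.add_sum_erase univ _ (mem_univ (0 : (F × F) × (F × F)))]
  have h1 : (if a * bf n f (0 : (F × F) × (F × F)).1.1 (0 : (F × F) × (F × F)).1.2 =
      bf n g (0 : (F × F) × (F × F)).2.1 (0 : (F × F) × (F × F)).2.2 then (1 : ℂ) else 0) = 1 :=
    if_pos h0
  rw [h1, add_comm]
  congr 1
  unfold sol
  rw [Nat.card_eq_fintype_card, Fintype.card_subtype, card_filter]
  push_cast
  rw [← Finset.add_sum_erase univ _ (mem_univ (0 : (F × F) × (F × F)))]
  rw [if_neg (fun h => h.1 rfl), zero_add]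
  refine sum_congr rfl fun x hx => ?_
  have hx0 : x ≠ 0 := (mem_erase.1 hx).1
  by_cases h : a * bf n f x.1.1 x.1.2 = bf n g x.2.1 x.2.2
  · rw [if_pos h, if_pos ⟨hx0, h⟩]
  · rw [if_neg h, if_neg (fun h' => h h'.2)]

open Classical in
theorem sum_nz (φ : F × F → ℂ) : ∑ P : F × F, φ P = φ 0 + ∑ w : Fˣ × Option F,
    φ ((nzEquiv F).symm w).1 := by
  rw [Fintype.sum_eq_add_sum_subtype_ne φ 0]
  congr 1
  rw [← (nzEquiv F).symm.sum_comp]

open Classical in
theorem sol_eq {n : ℕ} (hn : n ≠ 0) {a : F} (ha : a ≠ 0) {f g : F[X]} (hf : f.Monic) (hg : g.Monic)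
    (hfn : f.natDegree = n) (hgn : g.natDegree = n) : (sol n a f g : ℂ) =
    (Fintype.card Fˣ : ℂ) * (nr f + nr g + (Fintype.card Fˣ : ℂ) * (nr f * nr g) +
      ∑ χ ∈ Gn F n, χ a * (mm f χ * mm g χ⁻¹)) := by
  have h0 := sol_sum hn a f g
  rw [sum_nz] at h0
  have e1 : ∑ Q : F × F, (if a * bf n f (0 : F × F).1 (0 : F × F).2 = bf n g Q.1 Q.2 then (1 : ℂ)
      else 0) = 1 + (Fintype.card Fˣ : ℂ) * nr g := by
    rw [sum_nz]
    congr 1
    · rw [if_pos]
      show a * bf n f 0 0 = bf n g (0 : F) 0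
      rw [bf_zz hn, bf_zz hn, mul_zero]
    · rw [nr_sum, Fintype.sum_prod_type]
      have h : ∀ u : Fˣ, (∑ y : Option F, if a * bf n f (0 : F × F).1 (0 : F × F).2 =
          bf n g ((nzEquiv F).symm (u, y)).1.1 ((nzEquiv F).symm (u, y)).1.2 then (1 : ℂ) else 0) =
          ∑ o : Option F, if pv g o = 0 then (1 : ℂ) else 0 := by
        intro u
        refine sum_congr rfl fun o _ => ?_
        rw [bf_nz hg hgn]
        have h2 : (a * bf n f (0 : F × F).1 (0 : F × F).2 = (u : F) ^ n * pv g o) ↔ pv g o = 0 := by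
          have h3 : a * bf n f (0 : F × F).1 (0 : F × F).2 = 0 := by
            show a * bf n f 0 0 = 0
            rw [bf_zz hn, mul_zero]
          rw [h3]
          constructor
          · intro h4
            exact (mul_eq_zero.1 h4.symm).resolve_left (pow_ne_zero _ u.ne_zero)
          · intro h4
            rw [h4, mul_zero]
        by_cases h5 : pv g o = 0
        · rw [if_pos h5, if_pos (h2.2 h5)]
        · rw [if_neg h5, if_neg (fun h => h5 (h2.1 h))]
      rw [sum_congr rfl fun u _ => h u, sum_const, card_univ, nsmul_eq_mul]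
  have e2 : ∀ w : Fˣ × Option F, (∑ Q : F × F, (if a * bf n f ((nzEquiv F).symm w).1.1
      ((nzEquiv F).symm w).1.2 = bf n g Q.1 Q.2 then (1 : ℂ) else 0)) =
      (if pv f w.2 = 0 then (1 : ℂ) else 0) +
        ∑ v : Fˣ × Option F, if a * ((w.1 : F) ^ n * pv f w.2) = (v.1 : F) ^ n * pv g v.2
          then (1 : ℂ) else 0 := by
    intro w
    rw [sum_nz]
    congr 1
    · rw [bf_nz hf hfn]
      have h2 : (a * ((w.1 : F) ^ n * pv f w.2) = bf n g (0 : F × F).1 (0 : F × F).2) ↔
          pv f w.2 = 0 := by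
        have h3 : bf n g (0 : F × F).1 (0 : F × F).2 = 0 := by
          show bf n g 0 0 = 0
          rw [bf_zz hn]
        rw [h3]
        constructor
        · intro h4
          exact (mul_eq_zero.1 ((mul_eq_zero.1 h4).resolve_left ha)).resolve_left
            (pow_ne_zero _ w.1.ne_zero)
        · intro h4
          rw [h4, mul_zero, mul_zero]
      by_cases h5 : pv f w.2 = 0
      · rw [if_pos h5, if_pos (h2.2 h5)]
      · rw [if_neg h5, if_neg (fun h => h5 (h2.1 h))]
    · refine sum_congr rfl fun v _ => ?_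
      rw [bf_nz hf hfn, bf_nz hg hgn]
  rw [e1, sum_congr rfl fun w _ => e2 w, sum_add_distrib] at h0
  have e3 : ∑ w : Fˣ × Option F, (if pv f w.2 = 0 then (1 : ℂ) else 0) =
      (Fintype.card Fˣ : ℂ) * nr f := by
    rw [nr_sum, Fintype.sum_prod_type]
    show (∑ _x : Fˣ, ∑ y : Option F, if pv f y = 0 then (1 : ℂ) else 0) = _
    rw [sum_const, card_univ, nsmul_eq_mul]
  -- the main sum
  have e4 : ∑ w : Fˣ × Option F, ∑ v : Fˣ × Option F,
      (if a * ((w.1 : F) ^ n * pv f w.2) = (v.1 : F) ^ n * pv g v.2 then (1 : ℂ) else 0) =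
      (Fintype.card Fˣ : ℂ) * (∑ p : Option F, ∑ s : Option F,
        ((∑ χ ∈ Gn F n, χ (a * pv f p) * χ⁻¹ (pv g s)) +
        (Fintype.card Fˣ : ℂ) * ((if a * pv f p = 0 then 1 else 0) *
          (if pv g s = 0 then 1 else 0)))) := by
    rw [Fintype.sum_prod_type]
    have h1 : ∀ u : Fˣ, (∑ p : Option F, ∑ v : Fˣ × Option F,
        (if a * (((u, p).1 : F) ^ n * pv f (u, p).2) = (v.1 : F) ^ n * pv g v.2 then (1 : ℂ)
          else 0)) = ∑ p : Option F, ∑ s : Option F, ∑ ν : Fˣ,
          if a * pv f p = (ν : F) ^ n * pv g s then (1 : ℂ) else 0 := by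
      intro u
      refine sum_congr rfl fun p _ => ?_
      rw [Fintype.sum_prod_type, sum_comm]
      refine sum_congr rfl fun s _ => ?_
      rw [← Equiv.sum_comp (Equiv.mulLeft u)]
      refine sum_congr rfl fun ν _ => ?_
      have hu : (u : F) ≠ 0 := u.ne_zero
      have h2 : (a * ((u : F) ^ n * pv f p) = ((u * ν : Fˣ) : F) ^ n * pv g s) ↔
          a * pv f p = (ν : F) ^ n * pv g s := by
        rw [Units.val_mul, mul_pow]
        constructor
        · intro h
          apply mul_left_cancel₀ (pow_ne_zero n hu)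
          linear_combination h
        · intro h
          linear_combination (u : F) ^ n * h
      show (if a * ((u : F) ^ n * pv f p) = ((u * ν : Fˣ) : F) ^ n * pv g s then (1 : ℂ) else 0) = _
      by_cases h5 : a * pv f p = (ν : F) ^ n * pv g s
      · rw [if_pos h5, if_pos (h2.2 h5)]
      · rw [if_neg h5, if_neg (fun h => h5 (h2.1 h))]
    rw [sum_congr rfl fun u _ => h1 u, sum_const, card_univ, nsmul_eq_mul]
    congr 1
    refine sum_congr rfl fun p _ => sum_congr rfl fun s _ => ?_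
    exact pow_count hn _ _
  have e5 : ∑ p : Option F, ∑ s : Option F,
        ((∑ χ ∈ Gn F n, χ (a * pv f p) * χ⁻¹ (pv g s)) +
        (Fintype.card Fˣ : ℂ) * ((if a * pv f p = 0 then 1 else 0) *
          (if pv g s = 0 then 1 else 0))) =
      ∑ χ ∈ Gn F n, χ a * (mm f χ * mm g χ⁻¹) + (Fintype.card Fˣ : ℂ) * (nr f * nr g) := by
    have h1 : ∀ p : Option F, (∑ s : Option F,
        ((∑ χ ∈ Gn F n, χ (a * pv f p) * χ⁻¹ (pv g s)) +
        (Fintype.card Fˣ : ℂ) * ((if a * pv f p = 0 then 1 else 0) *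
          (if pv g s = 0 then 1 else 0)))) =
        (∑ χ ∈ Gn F n, χ a * (χ (pv f p) * mm g χ⁻¹)) +
          (Fintype.card Fˣ : ℂ) * ((if pv f p = 0 then 1 else 0) * nr g) := by
      intro p
      rw [sum_add_distrib]
      congr 1
      · rw [sum_comm]
        refine sum_congr rfl fun χ _ => ?_
        rw [← mul_sum, mm_eq, map_mul]
        ring
      · rw [← mul_sum, ← mul_sum, nr_sum g]
        have h2 : (if a * pv f p = 0 then (1 : ℂ) else 0) = if pv f p = 0 then 1 else 0 := by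
          by_cases h : pv f p = 0
          · rw [if_pos h, if_pos (by rw [h, mul_zero])]
          · rw [if_neg h, if_neg (mul_ne_zero ha h)]
        rw [h2]
    rw [sum_congr rfl fun p _ => h1 p, sum_add_distrib]
    congr 1
    · rw [sum_comm]
      refine sum_congr rfl fun χ _ => ?_
      rw [← mul_sum, ← sum_mul, ← mm_eq]
    · rw [← mul_sum, ← sum_mul, ← nr_sum]
  rw [e3, e4, e5] at h0
  linear_combination h0

/-- the part of the nontrivial characters -/
noncomputable def trn (F : Type) [Field F] [Fintype F] (n : ℕ) (a : F) (f g : F[X]) : ℂ :=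
  letI := Classical.decEq (MulChar F ℂ)
  ∑ χ ∈ (Gn F n).erase 1, χ a * (mm f χ * mm g χ⁻¹)

theorem trn_eq [inst : DecidableEq (MulChar F ℂ)] (n : ℕ) (a : F) (f g : F[X]) :
    trn F n a f g = ∑ χ ∈ (Gn F n).erase 1, χ a * (mm f χ * mm g χ⁻¹) := by
  unfold trn
  have h : Classical.decEq (MulChar F ℂ) = inst := Subsingleton.elim _ _
  rw [h]

/-- **The trace.** -/
theorem trace_eq {n : ℕ} (hn : n ≠ 0) {a : F} (ha : a ≠ 0) {f g : F[X]} (hf : f.Monic)
    (hg : g.Monic) (hfn : f.natDegree = n) (hgn : g.natDegree = n) :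
    (sol n a f g : ℂ) / ((Fintype.card F : ℂ) - 1) - 1 - (Fintype.card F : ℂ) ^ 2 =
      (Fintype.card F : ℂ) * (2 + nr f * nr g - nr f - nr g) + trn F n a f g := by
  classical
  have h := sol_eq hn ha hf hg hfn hgn
  have hu : (Fintype.card Fˣ : ℂ) = (Fintype.card F : ℂ) - 1 := by
    rw [Fintype.card_units, Nat.cast_sub Fintype.card_pos, Nat.cast_one]
  have hq : (Fintype.card F : ℂ) - 1 ≠ 0 := by
    rw [← hu]
    exact_mod_cast Fintype.card_ne_zero
  rw [hu] at h
  have h1 : ∑ χ ∈ Gn F n, χ a * (mm f χ * mm g χ⁻¹) =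
      (((Fintype.card F : ℂ) + 1 - nr f) * ((Fintype.card F : ℂ) + 1 - nr g)) + trn F n a f g := by
    have hmem : (1 : MulChar F ℂ) ∈ Gn F n := mem_Gn.2 (one_pow n)
    rw [← Finset.add_sum_erase _ _ hmem, inv_one, mm_one, mm_one,
      MulChar.one_apply (isUnit_iff_ne_zero.2 ha), one_mul]
    congr 1
    exact (trn_eq n a f g).symm
  rw [h1] at h
  rw [h]
  field_simp
  ring

end

end Pool.Agent.U437.JS
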