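import Pool.Agent.R410.NG.Sf
import Pool.Agent.U437.JS.Cnt

/-!
# The numbers of the roots: asymptotics
-/

set_option autoImplicit false
set_option linter.all false
set_option maxHeartbeats 1000000

open Polynomial Finset NumberField

namespace Pool.Agent.U437.JS

open Pool.Agent.R410.LW (FG frac_of_closure ft_int)
open Pool.Agent.R410.BS (cF hom_le)
open Pool.Agent.R410.NG

section
variable {M : Type} [Field M] {k : Type} [Field k] [NumberField k] [Algebra k M]

/-- a ring of coefficients over which coprime polynomials stay coprime -/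
theorem exists_ringC (hM : FG M) {κ : Type} [Fintype κ] (P : κ → M[X]) :
    ∃ A : Subalgebra ℤ M, Algebra.FiniteType ℤ A ∧
    IsFractionRing A M ∧ (∀ z : 𝓞 k, algebraMap k M z ∈ A) ∧
    ∃ q : κ → A[X], (∀ j, (q j).map (algebraMap A M) = P j) ∧
      ∀ i j, IsCoprime (P i) (P j) → IsCoprime (q i) (q j) := by
  classical
  have hex : ∀ i j : κ, ∃ u v : M[X], IsCoprime (P i) (P j) → u * P i + v * P j = 1 := by
    intro i j
    by_cases h : IsCoprime (P i) (P j)
    · obtain ⟨u, v, huv⟩ := h
      exact ⟨u, v, fun _ => huv⟩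
    · exact ⟨0, 0, fun h' => absurd h' h⟩
  choose U V hUV using hex
  obtain ⟨A, h1, h2, h3, h4⟩ := exists_ringP (k := k) hM
    (κ := κ ⊕ (κ × κ) ⊕ (κ × κ)) (Sum.elim P (Sum.elim (fun w => U w.1 w.2) (fun w => V w.1 w.2)))
  choose q hq using h4
  have hinj : Function.Injective (Polynomial.map (algebraMap A M)) :=
    Polynomial.map_injective _ (IsFractionRing.injective A M)
  refine ⟨A, h1, h2, h3, fun j => q (Sum.inl j), fun j => hq (Sum.inl j), fun i j hij => ?_⟩
  refine ⟨q (Sum.inr (Sum.inl (i, j))), q (Sum.inr (Sum.inr (i, j))), hinj ?_⟩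
  rw [Polynomial.map_add, Polynomial.map_mul, Polynomial.map_mul, hq, hq, hq, hq,
    Polynomial.map_one]
  exact hUV i j hij

end

section
variable {A : Type} [CommRing A] {F : Type} [Field F] [Fintype F] [Fintype (A →+* F)]

open Classical in
theorem nr_real (f : F[X]) : (nr f : ℝ) = ∑ x : F, if f.eval x = 0 then (1 : ℝ) else 0 := by
  unfold nr
  rw [Nat.card_eq_fintype_card, Fintype.card_subtype, card_filter]
  push_cast
  rfl

open Classical in
theorem nr_prod {ι : Type} [Fintype ι] (δ : ι → A[X])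
    (hcop : ∀ i j, i ≠ j → IsCoprime (δ i) (δ j)) (ψ : A →+* F) :
    (nr ((∏ i, δ i).map ψ) : ℝ) = ∑ i, (nr ((δ i).map ψ) : ℝ) := by
  simp only [nr_real]
  rw [sum_comm]
  refine sum_congr rfl fun x _ => ?_
  have e1 : ((∏ i, δ i).map ψ).eval x = ∏ i, ((δ i).map ψ).eval x := by
    rw [Polynomial.map_prod, eval_prod]
  rw [e1]
  by_cases h : ∏ i, ((δ i).map ψ).eval x = 0
  · rw [if_pos h]
    obtain ⟨i, -, hi⟩ := prod_eq_zero_iff.1 h
    rw [sum_eq_single i]
    · rw [if_pos hi]
    · intro j _ hj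
      rw [if_neg]
      intro hj0
      obtain ⟨u, v, huv⟩ := hcop i j (fun h => hj h.symm)
      have h2 := congrArg (fun p => (p.map ψ).eval x) huv
      simp only [Polynomial.map_add, Polynomial.map_mul, eval_add, eval_mul, hi, hj0, mul_zero,
        add_zero, Polynomial.map_one, eval_one] at h2
      exact zero_ne_one h2
    · intro h
      exact absurd (mem_univ _) h
  · rw [if_neg h]
    symm
    refine sum_eq_zero fun i _ => ?_
    rw [if_neg]
    intro hi
    exact h (prod_eq_zero (mem_univ i) hi)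

open Classical in
theorem cov_sum (p : A[X]) [Fintype (AdjoinRoot p →+* F)] (W : (A →+* F) → ℝ) :
    ∑ χ : AdjoinRoot p →+* F, W (χ.comp (AdjoinRoot.of p)) =
      ∑ ψ : A →+* F, (nr (p.map ψ) : ℝ) * W ψ := by
  rw [← (adjEquiv (F := F) p).symm.sum_comp, Fintype.sum_sigma]
  refine Finset.sum_congr rfl fun ψ _ => ?_
  have h1 : ∀ x : {x : F // eval₂ ψ x p = 0},
      W (((adjEquiv (F := F) p).symm ⟨ψ, x⟩).comp (AdjoinRoot.of p)) = W ψ := by
    intro x
    congr 1
    refine RingHom.ext fun a => ?_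
    rw [RingHom.comp_apply]
    exact AdjoinRoot.lift_of x.2
  rw [sum_congr rfl fun x _ => h1 x, sum_const, card_univ, nsmul_eq_mul]
  congr 1
  unfold nr
  rw [Nat.card_eq_fintype_card]
  congr 1
  refine Fintype.card_congr (Equiv.subtypeEquivRight fun x => ?_)
  rw [eval_map]

/-- the sum over the points of a scheme and the roots -/
theorem fib_sum {ι : Type} [Fintype ι] (δ : ι → A[X])
    (hcop : ∀ i j, i ≠ j → IsCoprime (δ i) (δ j))
    [∀ i, Fintype (AdjoinRoot (δ i) →+* F)] (W : (A →+* F) → ℝ) :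
    ∑ ψ : A →+* F, (nr ((∏ i, δ i).map ψ) : ℝ) * W ψ =
      ∑ i, ∑ χ : AdjoinRoot (δ i) →+* F, W (χ.comp (AdjoinRoot.of (δ i))) := by
  simp only [nr_prod δ hcop, cov_sum, sum_mul]
  rw [sum_comm]

end

/-- the weight: the number of the roots -/
noncomputable def wr : Wt Unit := fun F _ p => (nr (p ()) : ℝ)

/-- the weight: the product of the numbers of the roots -/
noncomputable def wr2 : Wt (Fin 2) := fun F _ p => (nr (p 0) : ℝ) * nr (p 1)

theorem nr_iso {F F' : Type} [Field F] [Field F'] (e : F ≃+* F') (p : F[X]) :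
    nr (p.map (e : F →+* F')) = nr p := by
  unfold nr
  refine Nat.card_congr (Equiv.subtypeEquiv e.symm.toEquiv fun x => ?_)
  show (p.map (e : F →+* F')).eval x = 0 ↔ p.eval (e.symm x) = 0
  rw [eval_map]
  have h1 : eval₂ (e : F →+* F') x p = e (p.eval (e.symm x)) := by
    conv_lhs => rw [show x = (e : F →+* F') (e.symm x) from (e.apply_symm_apply x).symm]
    rw [eval₂_at_apply]
    rfl
  rw [h1]
  exact map_eq_zero_iff e e.injective

theorem nr_le {F : Type} [Field F] [Finite F] {p : F[X]} (hp : p.Monic) : nr p ≤ p.natDegree := by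
  classical
  let _ := Fintype.ofFinite F
  unfold nr
  rw [Nat.card_eq_fintype_card, Fintype.card_subtype]
  have h1 : (univ.filter fun x : F => p.eval x = 0) ⊆ p.roots.toFinset := by
    intro x hx
    rw [Multiset.mem_toFinset, mem_roots hp.ne_zero]
    exact (mem_filter.1 hx).2
  exact (card_le_card h1).trans ((Multiset.toFinset_card_le _).trans (card_roots' _))

theorem one_le_sq (F : Type) [Field F] [Finite F] : (1 : ℝ) ≤ √(Nat.card F : ℝ) := by
  refine Real.one_le_sqrt.2 ?_
  exact_mod_cast Nat.card_pos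

theorem isWt_wr (n : ℕ) : IsWt wr (fun _ => n) n where
  c0 := Nat.cast_nonneg _
  iso := fun F F' _ _ e p => by
    unfold wr
    rw [nr_iso]
  bound := fun F _ _ p hp => by
    unfold wr
    rw [abs_of_nonneg (Nat.cast_nonneg _)]
    have h1 : (nr (p ()) : ℝ) ≤ n := by
      have := nr_le (hp ()).1
      rw [(hp ()).2] at this
      exact_mod_cast this
    exact h1.trans (le_mul_of_one_le_right (Nat.cast_nonneg _) (one_le_sq F))

theorem isWt_wr2 (n : Fin 2 → ℕ) : IsWt wr2 n ((n 0 : ℝ) * n 1) where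
  c0 := by positivity
  iso := fun F F' _ _ e p => by
    unfold wr2
    rw [nr_iso, nr_iso]
  bound := fun F _ _ p hp => by
    unfold wr2
    have h1 : (nr (p 0) : ℝ) ≤ n 0 := by
      have := nr_le (hp 0).1
      rw [(hp 0).2] at this
      exact_mod_cast this
    have h2 : (nr (p 1) : ℝ) ≤ n 1 := by
      have := nr_le (hp 1).1
      rw [(hp 1).2] at this
      exact_mod_cast this
    rw [abs_of_nonneg (by positivity)]
    calc (nr (p 0) : ℝ) * nr (p 1) ≤ n 0 * n 1 := by gcongr
      _ ≤ _ := le_mul_of_one_le_right (by positivity) (one_le_sq F)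

/-- the closed points of `f = 0` -/
abbrev CP {M : Type} [CommRing M] (f : M[X]) : Type := {δ : M[X] // δ.Monic ∧ Irreducible δ ∧ δ ∣ f}

open Classical in
theorem cp_finite {M : Type} [Field M] {f : M[X]} (hf : f ≠ 0) : Finite (CP f) := by
  have h : {δ : M[X] | δ.Monic ∧ Irreducible δ ∧ δ ∣ f} ⊆
      ((UniqueFactorizationMonoid.normalizedFactors f).toFinset : Set M[X]) := by
    rintro δ ⟨h1, h2, h3⟩
    rw [Finset.mem_coe, ft_mem hf]
    exact ⟨h2, h1, h3⟩
  exact ((Finset.finite_toSet _).subset h).to_subtype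

theorem cp_cop {M : Type} [Field M] {f : M[X]} (i j : CP f) (hij : i ≠ j) : IsCoprime i.1 j.1 := by
  rw [Irreducible.coprime_iff_not_dvd i.2.2.1]
  intro h
  apply hij
  apply Subtype.ext
  exact eq_of_monic_of_associated i.2.1 j.2.1 (i.2.2.1.associated_of_dvd j.2.2.1 h)

open Classical in
/-- a monic separable polynomial is the product of its monic irreducible factors -/
theorem cp_prod {M : Type} [Field M] {f : M[X]} (hf : f.Monic) (hs : f.Separable) [Fintype (CP f)] :
    ∏ i : CP f, i.1 = f := by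
  have h0 : f ≠ 0 := hf.ne_zero
  have hnd : (UniqueFactorizationMonoid.normalizedFactors f).Nodup :=
    (UniqueFactorizationMonoid.squarefree_iff_nodup_normalizedFactors h0).1 hs.squarefree
  have h1 := ft_prod f
  have hlc : f.leadingCoeff = 1 := hf
  rw [hlc, C_1, one_mul] at h1
  have h2 : ∏ i : FT f, i.1 ^ mu f i = ∏ i : FT f, i.1 := by
    refine prod_congr rfl fun i _ => ?_
    have h3 : mu f i = 1 := by
      have h4 : mu f i ≤ 1 := Multiset.nodup_iff_count_le_one.1 hnd i.1
      have h5 := mu_ne i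
      omega
    rw [h3, pow_one]
  rw [h2] at h1
  refine Eq.trans ?_ h1.symm
  let e : CP f ≃ FT f := Equiv.subtypeEquivRight fun δ => by
    rw [ft_mem h0]
    constructor
    · rintro ⟨h1, h2, h3⟩
      exact ⟨h2, h1, h3⟩
    · rintro ⟨h1, h2, h3⟩
      exact ⟨h2, h1, h3⟩
  exact Fintype.prod_equiv e _ _ fun i => rfl

end Pool.Agent.U437.JS
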