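import Mathlib

/-!
# The rank of the intersection form on the invariant combinations of the lines
-/

set_option autoImplicit false
set_option linter.all false
set_option maxHeartbeats 1000000

open Finset

namespace Pool.Agent.U437.JS

section
variable {P : Type}

/-- the functions which are constant on the classes -/
def inv (s : Setoid P) : Submodule ℚ (P → ℚ) where
  carrier := {u | ∀ p p', s.r p p' → u p = u p'}
  add_mem' := fun {u v} hu hv p p' h => by
    show u p + v p = u p' + v p'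
    rw [hu p p' h, hv p p' h]
  zero_mem' := fun p p' _ => rfl
  smul_mem' := fun c u hu p p' h => by
    show c * u p = c * u p'
    rw [hu p p' h]

theorem finrank_inv [Finite P] (s : Setoid P) :
    Module.finrank ℚ (inv s) = Nat.card (Quotient s) := by
  classical
  have hf : Finite (Quotient s) := Quotient.finite s
  let _ := Fintype.ofFinite (Quotient s)
  let e : inv s ≃ₗ[ℚ] (Quotient s → ℚ) :=
    { toFun := fun u q => Quotient.lift u.1 (fun p p' h => u.2 p p' h) q
      map_add' := fun u v => by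
        funext q
        induction q using Quotient.inductionOn with | _ p => rfl
      map_smul' := fun c u => by
        funext q
        induction q using Quotient.inductionOn with | _ p => rfl
      invFun := fun w => ⟨fun p => w (Quotient.mk s p), fun p p' h => congrArg w (Quotient.sound h)⟩
      left_inv := fun u => rfl
      right_inv := fun w => by
        funext q
        induction q using Quotient.inductionOn with | _ p => rfl }
  rw [e.finrank_eq, Module.finrank_pi, Nat.card_eq_fintype_card]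

variable [Fintype P]

/-- the sum -/
def tot : (P → ℚ) →ₗ[ℚ] ℚ where
  toFun u := ∑ p, u p
  map_add' u v := sum_add_distrib
  map_smul' c u := by
    show ∑ p, c * u p = c * ∑ p, u p
    rw [mul_sum]

/-- the invariant functions with sum zero -/
def inv0 (s : Setoid P) : Submodule ℚ (P → ℚ) := inv s ⊓ LinearMap.ker tot

theorem finrank_inv0 [Nonempty P] (s : Setoid P) :
    Module.finrank ℚ (inv0 s) + 1 = Nat.card (Quotient s) := by
  rw [← finrank_inv]
  let φ : inv s →ₗ[ℚ] ℚ := tot.comp (inv s).subtype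
  have h1 := LinearMap.finrank_range_add_finrank_ker φ
  have h2 : LinearMap.range φ = ⊤ := by
    rw [LinearMap.range_eq_top]
    intro c
    have hc : ((Fintype.card P : ℚ)) ≠ 0 := by exact_mod_cast Fintype.card_ne_zero
    refine ⟨⟨fun _ => c / Fintype.card P, fun _ _ _ => rfl⟩, ?_⟩
    show ∑ p : P, c / (Fintype.card P : ℚ) = c
    rw [sum_const, card_univ, nsmul_eq_mul]
    field_simp
  rw [h2, finrank_top, Module.finrank_self] at h1
  have h3 : Module.finrank ℚ (LinearMap.ker φ) = Module.finrank ℚ (inv0 s) := by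
    let e : LinearMap.ker φ ≃ₗ[ℚ] inv0 s :=
      { toFun := fun u => ⟨u.1.1, u.1.2, u.2⟩
        map_add' := fun u v => rfl
        map_smul' := fun c u => rfl
        invFun := fun w => ⟨⟨w.1, w.2.1⟩, w.2.2⟩
        left_inv := fun u => rfl
        right_inv := fun w => rfl }
    exact e.finrank_eq
  omega

end

section
variable {I J : Type} [Fintype I] [Fintype J]

open Classical in
/-- the intersection number of two of the lines -/
noncomputable def lin (n : ℕ) (p p' : I × J) : ℚ :=
  if p = p' then 2 - n else if p.1 = p'.1 ∨ p.2 = p'.2 then 1 else 0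

/-- the intersection number of two combinations of lines -/
noncomputable def inter (n : ℕ) (u v : I × J → ℚ) : ℚ := ∑ p, ∑ p', u p * v p' * lin n p p'

open Classical in
theorem lin_eq (n : ℕ) (p p' : I × J) : lin n p p' = (if p.1 = p'.1 then (1 : ℚ) else 0) +
    (if p.2 = p'.2 then 1 else 0) - n * (if p = p' then 1 else 0) := by
  unfold lin
  by_cases h1 : p.1 = p'.1
  · by_cases h2 : p.2 = p'.2
    · have h3 : p = p' := Prod.ext h1 h2
      rw [if_pos h3, if_pos h1, if_pos h2, if_pos h3]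
      ring
    · have h3 : p ≠ p' := fun h => h2 (congrArg Prod.snd h)
      rw [if_neg h3, if_pos (Or.inl h1), if_pos h1, if_neg h2, if_neg h3]
      ring
  · have h3 : p ≠ p' := fun h => h1 (congrArg Prod.fst h)
    by_cases h2 : p.2 = p'.2
    · rw [if_neg h3, if_pos (Or.inr h2), if_neg h1, if_pos h2, if_neg h3]
      ring
    · rw [if_neg h3, if_neg (by tauto), if_neg h1, if_neg h2, if_neg h3]
      ring

/-- the intersection numbers with the lines -/
noncomputable def bb (n : ℕ) (u : I × J → ℚ) (p : I × J) : ℚ :=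
  ∑ y, u (p.1, y) + ∑ x, u (x, p.2) - n * u p

theorem inter_eq (n : ℕ) (u v : I × J → ℚ) : inter n u v = ∑ p, v p * bb n u p := by
  classical
  unfold inter
  rw [sum_comm]
  refine sum_congr rfl fun p' _ => ?_
  have h1 : ∀ p : I × J, u p * v p' * lin n p p' = v p' * ((u p * if p.1 = p'.1 then 1 else 0) +
      (u p * if p.2 = p'.2 then 1 else 0) - n * (u p * if p = p' then 1 else 0)) := by
    intro p
    rw [lin_eq]
    ring
  rw [sum_congr rfl fun p _ => h1 p, ← mul_sum]
  congr 1
  rw [sum_sub_distrib, sum_add_distrib, ← mul_sum]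
  unfold bb
  congr 1
  · congr 1
    · rw [Fintype.sum_prod_type, sum_comm]
      refine sum_congr rfl fun y _ => ?_
      simp
    · rw [Fintype.sum_prod_type]
      refine sum_congr rfl fun x _ => ?_
      simp
  · simp

variable (s1 : Setoid I) (s2 : Setoid J) (s : Setoid (I × J))

/-- the group of the invariant combinations of the lines, up to numerical equivalence -/
def nt (n : ℕ) : Submodule ℚ (inv s) where
  carrier := {u | ∀ v : inv s, inter n u.1 v.1 = 0}
  add_mem' := fun {u v} hu hv w => by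
    have h1 := hu w
    have h2 := hv w
    unfold inter at h1 h2 ⊢
    have h3 : ∀ p p' : I × J, (u + v).1 p * w.1 p' * lin n p p' =
        u.1 p * w.1 p' * lin n p p' + v.1 p * w.1 p' * lin n p p' := by
      intro p p'
      show (u.1 p + v.1 p) * w.1 p' * lin n p p' = _
      ring
    simp only [h3, sum_add_distrib, h1, h2, add_zero]
  zero_mem' := fun w => by
    unfold inter
    refine sum_eq_zero fun p _ => sum_eq_zero fun p' _ => ?_
    show (0 : ℚ) * w.1 p' * lin n p p' = 0
    ring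
  smul_mem' := fun c u hu w => by
    have h1 := hu w
    unfold inter at h1 ⊢
    have h3 : ∀ p p' : I × J, (c • u).1 p * w.1 p' * lin n p p' =
        c * (u.1 p * w.1 p' * lin n p p') := by
      intro p p'
      show (c * u.1 p) * w.1 p' * lin n p p' = _
      ring
    simp only [h3, ← mul_sum, h1, mul_zero]

variable {s1 s2 s}

theorem row_inv (h2 : ∀ x x', s1.r x x' → ∃ σ : J ≃ J, ∀ y, s.r (x, y) (x', σ y))
    {u : I × J → ℚ} (hu : u ∈ inv s) (x x' : I) (h : s1.r x x') :
    ∑ y, u (x, y) = ∑ y, u (x', y) := by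
  obtain ⟨σ, hσ⟩ := h2 x x' h
  rw [← σ.sum_comp (fun y => u (x', y))]
  exact sum_congr rfl fun y _ => hu _ _ (hσ y)

theorem col_inv (h3 : ∀ y y', s2.r y y' → ∃ σ : I ≃ I, ∀ x, s.r (x, y) (σ x, y'))
    {u : I × J → ℚ} (hu : u ∈ inv s) (y y' : J) (h : s2.r y y') :
    ∑ x, u (x, y) = ∑ x, u (x, y') := by
  obtain ⟨σ, hσ⟩ := h3 y y' h
  rw [← σ.sum_comp (fun x => u (x, y'))]
  exact sum_congr rfl fun x _ => hu _ _ (hσ x)

theorem mem_nt {n : ℕ} (h1 : ∀ p p', s.r p p' → s1.r p.1 p'.1 ∧ s2.r p.2 p'.2)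
    (h2 : ∀ x x', s1.r x x' → ∃ σ : J ≃ J, ∀ y, s.r (x, y) (x', σ y))
    (h3 : ∀ y y', s2.r y y' → ∃ σ : I ≃ I, ∀ x, s.r (x, y) (σ x, y')) (u : inv s) :
    u ∈ nt s n ↔ ∀ p, bb n u.1 p = 0 := by
  constructor
  · intro h
    have hb : bb n u.1 ∈ inv s := by
      intro p p' hp
      have e1 := row_inv h2 u.2 p.1 p'.1 (h1 p p' hp).1
      have e2 := col_inv h3 u.2 p.2 p'.2 (h1 p p' hp).2
      have e3 := u.2 p p' hp
      unfold bb
      rw [e1, e2, e3]
    have h4 := h ⟨_, hb⟩
    rw [inter_eq] at h4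
    have h5 := (sum_eq_zero_iff_of_nonneg (fun p _ => mul_self_nonneg (bb n u.1 p))).1 h4
    intro p
    exact mul_self_eq_zero.1 (h5 p (mem_univ p))
  · intro h v
    rw [inter_eq]
    exact sum_eq_zero fun p _ => by rw [h p, mul_zero]

/-- the numerically trivial combinations -/
theorem finrank_nt [Nonempty I] [Nonempty J] {n : ℕ} (hI : Fintype.card I = n)
    (hJ : Fintype.card J = n) (h1 : ∀ p p', s.r p p' → s1.r p.1 p'.1 ∧ s2.r p.2 p'.2)
    (h2 : ∀ x x', s1.r x x' → ∃ σ : J ≃ J, ∀ y, s.r (x, y) (x', σ y))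
    (h3 : ∀ y y', s2.r y y' → ∃ σ : I ≃ I, ∀ x, s.r (x, y) (σ x, y')) :
    Module.finrank ℚ (nt s n) + 2 = Nat.card (Quotient s1) + Nat.card (Quotient s2) := by
  have hn : (n : ℚ) ≠ 0 := by
    rw [← hI]
    exact_mod_cast Fintype.card_ne_zero
  have hcI : ∀ c : ℚ, ∑ _x : I, c = n * c := fun c => by
    rw [sum_const, card_univ, hI, nsmul_eq_mul]
  have hcJ : ∀ c : ℚ, ∑ _y : J, c = n * c := fun c => by
    rw [sum_const, card_univ, hJ, nsmul_eq_mul]
  have hAB : ∀ w : inv0 s1 × inv0 s2, (fun p : I × J => w.1.1 p.1 + w.2.1 p.2) ∈ inv s := by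
    intro w p p' hp
    show w.1.1 p.1 + w.2.1 p.2 = w.1.1 p'.1 + w.2.1 p'.2
    rw [w.1.2.1 _ _ (h1 p p' hp).1, w.2.2.1 _ _ (h1 p p' hp).2]
  have hnt : ∀ w : inv0 s1 × inv0 s2,
      (⟨fun p : I × J => w.1.1 p.1 + w.2.1 p.2, hAB w⟩ : inv s) ∈ nt s n := by
    intro w
    rw [mem_nt h1 h2 h3]
    intro p
    have e1 : ∑ x, w.1.1 x = 0 := w.1.2.2
    have e2 : ∑ y, w.2.1 y = 0 := w.2.2.2
    show ∑ y, (w.1.1 p.1 + w.2.1 y) + ∑ x, (w.1.1 x + w.2.1 p.2) -
      n * (w.1.1 p.1 + w.2.1 p.2) = 0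
    rw [sum_add_distrib, sum_add_distrib, e1, e2, hcI, hcJ]
    ring
  let φ : (inv0 s1 × inv0 s2) →ₗ[ℚ] nt s n :=
    { toFun := fun w => ⟨⟨fun p => w.1.1 p.1 + w.2.1 p.2, hAB w⟩, hnt w⟩
      map_add' := fun w w' => by
        apply Subtype.ext
        apply Subtype.ext
        funext p
        show (w.1.1 p.1 + w'.1.1 p.1) + (w.2.1 p.2 + w'.2.1 p.2) =
          (w.1.1 p.1 + w.2.1 p.2) + (w'.1.1 p.1 + w'.2.1 p.2)
        ring
      map_smul' := fun c w => by
        apply Subtype.ext
        apply Subtype.ext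
        funext p
        show c * w.1.1 p.1 + c * w.2.1 p.2 = c * (w.1.1 p.1 + w.2.1 p.2)
        ring }
  have hinj : Function.Injective φ := by
    rw [injective_iff_map_eq_zero]
    intro w hw
    have h4 : ∀ p : I × J, w.1.1 p.1 + w.2.1 p.2 = 0 := fun p =>
      congrFun (congrArg (fun z : nt s n => z.1.1) hw) p
    have e1 : ∑ x, w.1.1 x = 0 := w.1.2.2
    have e2 : ∑ y, w.2.1 y = 0 := w.2.2.2
    apply Prod.ext
    · apply Subtype.ext
      funext x
      have h5 : ∑ y : J, (w.1.1 x + w.2.1 y) = 0 := sum_eq_zero fun y _ => h4 (x, y)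
      rw [sum_add_distrib, e2, add_zero, hcJ] at h5
      exact (mul_eq_zero.1 h5).resolve_left hn
    · apply Subtype.ext
      funext y
      have h5 : ∑ x : I, (w.1.1 x + w.2.1 y) = 0 := sum_eq_zero fun x _ => h4 (x, y)
      rw [sum_add_distrib, e1, zero_add, hcI] at h5
      exact (mul_eq_zero.1 h5).resolve_left hn
  have hsurj : Function.Surjective φ := by
    rintro ⟨u, hu⟩
    have hb := (mem_nt h1 h2 h3 u).1 hu
    have hb' : ∀ x y, n * u.1 (x, y) = ∑ y', u.1 (x, y') + ∑ x', u.1 (x', y) := by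
      intro x y
      have := hb (x, y)
      unfold bb at this
      simp only at this
      linarith
    have ht : ∑ x, ∑ y, u.1 (x, y) = 0 := by
      obtain ⟨x⟩ := (inferInstance : Nonempty I)
      have h4 : ∑ y, n * u.1 (x, y) = ∑ y, (∑ y', u.1 (x, y') + ∑ x', u.1 (x', y)) :=
        sum_congr rfl fun y _ => hb' x y
      rw [← mul_sum, sum_add_distrib, hcJ, sum_comm] at h4
      linarith
    have ht' : ∑ y, ∑ x, u.1 (x, y) = 0 := by
      rw [sum_comm]
      exact ht
    let a : I → ℚ := fun x => (∑ y, u.1 (x, y)) / n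
    let b : J → ℚ := fun y => (∑ x, u.1 (x, y)) / n
    have ha : a ∈ inv0 s1 := by
      refine ⟨fun x x' h => ?_, ?_⟩
      · show (∑ y, u.1 (x, y)) / n = (∑ y, u.1 (x', y)) / n
        rw [row_inv h2 u.2 x x' h]
      · show ∑ x, (∑ y, u.1 (x, y)) / n = 0
        rw [← sum_div, ht, zero_div]
    have hb2 : b ∈ inv0 s2 := by
      refine ⟨fun y y' h => ?_, ?_⟩
      · show (∑ x, u.1 (x, y)) / n = (∑ x, u.1 (x, y')) / n
        rw [col_inv h3 u.2 y y' h]
      · show ∑ y, (∑ x, u.1 (x, y)) / n = 0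
        rw [← sum_div, ht', zero_div]
    refine ⟨(⟨a, ha⟩, ⟨b, hb2⟩), ?_⟩
    apply Subtype.ext
    apply Subtype.ext
    funext p
    show (∑ y, u.1 (p.1, y)) / n + (∑ x, u.1 (x, p.2)) / n = u.1 p
    rw [← add_div, ← hb' p.1 p.2, mul_div_cancel_left₀ _ hn]
  have e := LinearEquiv.ofBijective φ ⟨hinj, hsurj⟩
  have h4 := e.finrank_eq
  rw [Module.finrank_prod] at h4
  have h5 := finrank_inv0 s1
  have h6 := finrank_inv0 s2
  omega

/-- **The rank.** -/
theorem finrank_ns [Nonempty I] [Nonempty J] {n : ℕ} (hI : Fintype.card I = n)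
    (hJ : Fintype.card J = n) (h1 : ∀ p p', s.r p p' → s1.r p.1 p'.1 ∧ s2.r p.2 p'.2)
    (h2 : ∀ x x', s1.r x x' → ∃ σ : J ≃ J, ∀ y, s.r (x, y) (x', σ y))
    (h3 : ∀ y y', s2.r y y' → ∃ σ : I ≃ I, ∀ x, s.r (x, y) (σ x, y')) :
    (Module.finrank ℚ (inv s ⧸ nt s n) : ℤ) = 2 + Nat.card (Quotient s) - Nat.card (Quotient s1) -
      Nat.card (Quotient s2) := by
  have h4 := Submodule.finrank_quotient_add_finrank (nt s n)
  rw [finrank_inv] at h4
  have h5 := finrank_nt hI hJ h1 h2 h3
  omega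

end

end Pool.Agent.U437.JS
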