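import Pool.Agent.U437.JS.Roots

/-!
# The closed points and the orbits of the Galois group
-/

set_option autoImplicit false
set_option linter.all false
set_option maxHeartbeats 1000000

open Polynomial Finset

namespace Pool.Agent.U437.JS

section
variable {M : Type} [Field M]

/-- the roots of `f` -/
abbrev Rt (f : M[X]) : Type := {x : AlgebraicClosure M // aeval x f = 0}

theorem exists_gal {N : Type} [Field N] [Algebra M N] (θ θ₀ : N →ₐ[M] AlgebraicClosure M) :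
    ∃ σ : AlgebraicClosure M ≃ₐ[M] AlgebraicClosure M, ∀ z, σ (θ z) = θ₀ z := by
  let e : N ≃ₐ[M] θ.fieldRange := AlgEquiv.ofInjectiveField θ
  let ϕ : θ.fieldRange →ₐ[M] AlgebraicClosure M := θ₀.comp (e.symm : θ.fieldRange →ₐ[M] N)
  let σ := ϕ.liftNormal (AlgebraicClosure M)
  have hσ : Function.Bijective σ := Algebra.IsAlgebraic.algHom_bijective σ
  refine ⟨AlgEquiv.ofBijective σ hσ, fun z => ?_⟩
  show σ (θ z) = θ₀ z
  have h1 := AlgHom.liftNormal_commutes ϕ (AlgebraicClosure M) (e z)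
  have h2 : ϕ (e z) = θ₀ z := by
    show θ₀ (e.symm (e z)) = θ₀ z
    rw [e.symm_apply_apply]
  rw [h2] at h1
  exact h1

/-- conjugate roots -/
def r1 (f : M[X]) : Setoid (Rt f) where
  r x x' := ∃ σ : AlgebraicClosure M ≃ₐ[M] AlgebraicClosure M, σ x.1 = x'.1
  iseqv := by
    refine ⟨fun x => ⟨AlgEquiv.refl, rfl⟩, ?_, ?_⟩
    · rintro x y ⟨σ, h⟩
      exact ⟨σ.symm, by rw [← h, σ.symm_apply_apply]⟩
    · rintro x y z ⟨σ, h⟩ ⟨τ, h'⟩
      exact ⟨σ.trans τ, by rw [AlgEquiv.trans_apply, h, h']⟩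

/-- conjugate pairs of roots -/
def r2 (f g : M[X]) : Setoid (Rt f × Rt g) where
  r p p' := ∃ σ : AlgebraicClosure M ≃ₐ[M] AlgebraicClosure M, σ p.1.1 = p'.1.1 ∧ σ p.2.1 = p'.2.1
  iseqv := by
    refine ⟨fun x => ⟨AlgEquiv.refl, rfl, rfl⟩, ?_, ?_⟩
    · rintro x y ⟨σ, h, h'⟩
      exact ⟨σ.symm, by rw [← h, σ.symm_apply_apply], by rw [← h', σ.symm_apply_apply]⟩
    · rintro x y z ⟨σ, h1, h2⟩ ⟨τ, h1', h2'⟩
      exact ⟨σ.trans τ, by rw [AlgEquiv.trans_apply, h1, h1'],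
        by rw [AlgEquiv.trans_apply, h2, h2']⟩

/-- the closed point of a root -/
noncomputable def cpt {f : M[X]} (x : Rt f) : CP f :=
  ⟨minpoly M x.1, minpoly.monic (Algebra.IsIntegral.isIntegral x.1),
    minpoly.irreducible (Algebra.IsIntegral.isIntegral x.1), minpoly.dvd M x.1 x.2⟩

theorem card_r1 (f : M[X]) : Nat.card (Quotient (r1 f)) = cc f := by
  have hw : ∀ x x' : Rt f, (r1 f).r x x' → cpt x = cpt x' := by
    rintro x x' ⟨σ, h⟩
    apply Subtype.ext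
    show minpoly M x.1 = minpoly M x'.1
    rw [← h]
    exact (minpoly.algEquiv_eq σ x.1).symm
  let Φ : Quotient (r1 f) → CP f := Quotient.lift cpt hw
  refine Nat.card_congr (Equiv.ofBijective Φ ⟨?_, ?_⟩)
  · intro a b
    induction a using Quotient.inductionOn with | _ x =>
    induction b using Quotient.inductionOn with | _ y =>
    intro h
    have h1 : minpoly M x.1 = minpoly M y.1 := congrArg Subtype.val h
    rw [Normal.minpoly_eq_iff_mem_orbit] at h1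
    obtain ⟨σ, hσ⟩ := h1
    refine Quotient.sound ((r1 f).symm ⟨σ, hσ⟩)
  · rintro ⟨δ, h1, h2, h3⟩
    have hd : (δ.map (algebraMap M (AlgebraicClosure M))).degree ≠ 0 := by
      rw [degree_map]
      exact (degree_pos_of_irreducible h2).ne'
    obtain ⟨x, hx⟩ := IsAlgClosed.exists_root _ hd
    have hx' : aeval x δ = 0 := by
      rw [aeval_def, ← eval_map]
      exact hx
    have hxf : aeval x f = 0 := by
      obtain ⟨r, rfl⟩ := h3
      rw [map_mul, hx', zero_mul]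
    refine ⟨Quotient.mk _ ⟨x, hxf⟩, Subtype.ext ?_⟩
    show minpoly M x = δ
    exact (minpoly.eq_of_irreducible_of_monic h2 hx' h1).symm

/-- a pair of roots over a closed point -/
theorem exists_pt {f g : M[X]} (c : CP2 f g) : ∃ (p : Rt f × Rt g)
    (l : AdjoinRoot c.1.1 →ₐ[M] AlgebraicClosure M), l (AdjoinRoot.root c.1.1) = p.1.1 ∧
      eval₂ (l : AdjoinRoot c.1.1 →+* AlgebraicClosure M) p.2.1 c.2.1 = 0 := by
  obtain ⟨⟨δ, h1, h2, h3⟩, ⟨γ, k1, k2, k3⟩⟩ := c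
  have : Fact (Irreducible δ) := ⟨h2⟩
  have hd : (δ.map (algebraMap M (AlgebraicClosure M))).degree ≠ 0 := by
    rw [degree_map]
    exact (degree_pos_of_irreducible h2).ne'
  obtain ⟨x, hx⟩ := IsAlgClosed.exists_root _ hd
  have hx' : aeval x δ = 0 := by
    rw [aeval_def, ← eval_map]
    exact hx
  have hxf : aeval x f = 0 := by
    obtain ⟨r, rfl⟩ := h3
    rw [map_mul, hx', zero_mul]
  let l : AdjoinRoot δ →ₐ[M] AlgebraicClosure M :=
    AdjoinRoot.liftAlgHom δ (Algebra.ofId M (AlgebraicClosure M)) x hx'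
  have hl : l (AdjoinRoot.root δ) = x := AdjoinRoot.liftAlgHom_root _ _ _ _
  have hd2 : (γ.map (l : AdjoinRoot δ →+* AlgebraicClosure M)).degree ≠ 0 := by
    rw [degree_map]
    exact (degree_pos_of_irreducible k2).ne'
  obtain ⟨y, hy⟩ := IsAlgClosed.exists_root _ hd2
  have hy' : eval₂ (l : AdjoinRoot δ →+* AlgebraicClosure M) y γ = 0 := by
    rw [← eval_map]
    exact hy
  have hyg : aeval y g = 0 := by
    have h4 : eval₂ (l : AdjoinRoot δ →+* AlgebraicClosure M) y (g.map (AdjoinRoot.of δ)) = 0 := by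
      obtain ⟨r, hr⟩ := k3
      rw [hr, eval₂_mul, hy', zero_mul]
    rw [eval₂_map] at h4
    have h5 : (l : AdjoinRoot δ →+* AlgebraicClosure M).comp (AdjoinRoot.of δ) =
        algebraMap M (AlgebraicClosure M) := by
      refine RingHom.ext fun a => ?_
      show l (AdjoinRoot.of δ a) = _
      exact AdjoinRoot.liftAlgHom_of _ _ _ _ _
    rw [h5] at h4
    exact h4
  exact ⟨(⟨x, hxf⟩, ⟨y, hyg⟩), l, hl, hy'⟩

theorem conj_pt {δ : M[X]} [Fact (Irreducible δ)] {γ : (AdjoinRoot δ)[X]} (hγ : Irreducible γ)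
    (l l' : AdjoinRoot δ →ₐ[M] AlgebraicClosure M) {y y' : AlgebraicClosure M}
    (hy : eval₂ (l : AdjoinRoot δ →+* AlgebraicClosure M) y γ = 0)
    (hy' : eval₂ (l' : AdjoinRoot δ →+* AlgebraicClosure M) y' γ = 0) :
    ∃ σ : AlgebraicClosure M ≃ₐ[M] AlgebraicClosure M, (∀ z, σ (l z) = l' z) ∧ σ y = y' := by
  have : Fact (Irreducible γ) := ⟨hγ⟩
  let θ : AdjoinRoot γ →ₐ[M] AlgebraicClosure M := AdjoinRoot.liftAlgHom γ l y hy
  let θ' : AdjoinRoot γ →ₐ[M] AlgebraicClosure M := AdjoinRoot.liftAlgHom γ l' y' hy'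
  obtain ⟨σ, hσ⟩ := exists_gal θ θ'
  refine ⟨σ, fun z => ?_, ?_⟩
  · have h1 := hσ (AdjoinRoot.of γ z)
    rw [AdjoinRoot.liftAlgHom_of, AdjoinRoot.liftAlgHom_of] at h1
    exact h1
  · have h1 := hσ (AdjoinRoot.root γ)
    rw [AdjoinRoot.liftAlgHom_root, AdjoinRoot.liftAlgHom_root] at h1
    exact h1

theorem card_r2 (f g : M[X]) : Nat.card (Quotient (r2 f g)) = cc2 f g := by
  choose p l h1 h2 using fun c : CP2 f g => exists_pt c
  let Φ : CP2 f g → Quotient (r2 f g) := fun c => Quotient.mk _ (p c)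
  symm
  refine Nat.card_congr (Equiv.ofBijective Φ ⟨?_, ?_⟩)
  · intro c c' hcc
    obtain ⟨σ, k1, k2⟩ := Quotient.exact hcc
    have hmin : ∀ c : CP2 f g, minpoly M (p c).1.1 = c.1.1 := by
      intro c
      refine (minpoly.eq_of_irreducible_of_monic c.1.2.2.1 ?_ c.1.2.1).symm
      rw [← h1 c]
      rw [aeval_algHom_apply, AdjoinRoot.aeval_eq, AdjoinRoot.mk_self, map_zero]
    have e1 : c.1 = c'.1 := by
      apply Subtype.ext
      rw [← hmin c, ← hmin c', ← k1]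
      exact (minpoly.algEquiv_eq σ _).symm
    rcases c with ⟨δ, γ⟩
    rcases c' with ⟨δ', γ'⟩
    have e1' : δ = δ' := e1
    subst e1'
    congr 1
    by_contra hne
    have : Fact (Irreducible δ.1) := ⟨δ.2.2.1⟩
    obtain ⟨u, v, huv⟩ := cp_cop γ γ' hne
    have h3 : (σ : AlgebraicClosure M →ₐ[M] AlgebraicClosure M).comp (l ⟨δ, γ⟩) = l ⟨δ, γ'⟩ := by
      apply AdjoinRoot.algHom_ext
      show σ (l ⟨δ, γ⟩ (AdjoinRoot.root δ.1)) = l ⟨δ, γ'⟩ (AdjoinRoot.root δ.1)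
      rw [h1 ⟨δ, γ⟩, h1 ⟨δ, γ'⟩]
      exact k1
    have h4 : eval₂ (l ⟨δ, γ'⟩ : AdjoinRoot δ.1 →+* AlgebraicClosure M) (p ⟨δ, γ'⟩).2.1 γ.1 = 0 := by
      rw [← k2, ← h3]
      have h5 := hom_eval₂ γ.1 (l ⟨δ, γ⟩ : AdjoinRoot δ.1 →+* AlgebraicClosure M)
        (σ : AlgebraicClosure M →+* AlgebraicClosure M) (p ⟨δ, γ⟩).2.1
      rw [h2 ⟨δ, γ⟩, map_zero] at h5
      exact h5.symm
    have h6 := congrArg (fun P => eval₂ (l ⟨δ, γ'⟩ : AdjoinRoot δ.1 →+* AlgebraicClosure M)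
      (p ⟨δ, γ'⟩).2.1 P) huv
    simp only [eval₂_add, eval₂_mul, eval₂_one] at h6
    rw [h4, h2 ⟨δ, γ'⟩, mul_zero, mul_zero, add_zero] at h6
    exact zero_ne_one h6
  · intro a
    induction a using Quotient.inductionOn with | _ w =>
    rcases w with ⟨x, y⟩
    let δ : CP f := cpt x
    have : Fact (Irreducible δ.1) := ⟨δ.2.2.1⟩
    let l₀ : AdjoinRoot δ.1 →ₐ[M] AlgebraicClosure M :=
      AdjoinRoot.liftAlgHom δ.1 (Algebra.ofId M (AlgebraicClosure M)) x.1 (minpoly.aeval M x.1)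
    have hl₀ : l₀ (AdjoinRoot.root δ.1) = x.1 := AdjoinRoot.liftAlgHom_root _ _ _ _
    letI : Algebra (AdjoinRoot δ.1) (AlgebraicClosure M) := l₀.toRingHom.toAlgebra
    have hst : IsScalarTower M (AdjoinRoot δ.1) (AlgebraicClosure M) :=
      IsScalarTower.of_algebraMap_eq fun a => (l₀.commutes a).symm
    have hint : IsIntegral (AdjoinRoot δ.1) y.1 :=
      (Algebra.IsIntegral.isIntegral (R := M) y.1).tower_top
    let γ : CP (g.map (AdjoinRoot.of δ.1)) := ⟨minpoly (AdjoinRoot δ.1) y.1, minpoly.monic hint,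
      minpoly.irreducible hint, minpoly.dvd _ _ (by
        have h5 : aeval y.1 (g.map (algebraMap M (AdjoinRoot δ.1))) = 0 := by
          rw [aeval_map_algebraMap]
          exact y.2
        exact h5)⟩
    have h3 : eval₂ (l₀ : AdjoinRoot δ.1 →+* AlgebraicClosure M) y.1 γ.1 = 0 :=
      minpoly.aeval (AdjoinRoot δ.1) y.1
    obtain ⟨σ, k1, k2⟩ := conj_pt γ.2.2.1 (l ⟨δ, γ⟩) l₀ (h2 ⟨δ, γ⟩) h3
    refine ⟨⟨δ, γ⟩, Quotient.sound ⟨σ, ?_, k2⟩⟩
    show σ (p ⟨δ, γ⟩).1.1 = x.1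
    rw [← h1 ⟨δ, γ⟩, k1, hl₀]

end

end Pool.Agent.U437.JS
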