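import Pool.Agent.U437.JS.Proj
import Pool.Agent.U437.JS.Orb
import Pool.Agent.U437.JS.Lat

/-!
# The rank of the lattice of the lines, and the residue at `2`
-/

set_option autoImplicit false
set_option linter.all false
set_option maxHeartbeats 1000000

open Polynomial Finset NumberField IsDedekindDomain

namespace Pool.Agent.U437.JS

open Pool.Agent.R410.LW (FG)
open Pool.Agent.R410.NG
open Pool.Agent.Y707.PR (HasResidue series)

section
variable {M : Type} [Field M]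

/-- the roots -/
abbrev RS (f : M[X]) : Type := f.rootSet (AlgebraicClosure M)

/-- conjugate roots -/
def c1 (f : M[X]) : Setoid (RS f) where
  r x x' := ∃ σ : AlgebraicClosure M ≃ₐ[M] AlgebraicClosure M, σ x.1 = x'.1
  iseqv := by
    refine ⟨fun x => ⟨AlgEquiv.refl, rfl⟩, ?_, ?_⟩
    · rintro x y ⟨σ, h⟩
      exact ⟨σ.symm, by rw [← h, σ.symm_apply_apply]⟩
    · rintro x y z ⟨σ, h⟩ ⟨τ, h'⟩
      exact ⟨σ.trans τ, by rw [AlgEquiv.trans_apply, h, h']⟩

/-- conjugate pairs of roots -/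
def c2' (f g : M[X]) : Setoid (RS f × RS g) where
  r p p' := ∃ σ : AlgebraicClosure M ≃ₐ[M] AlgebraicClosure M, σ p.1.1 = p'.1.1 ∧ σ p.2.1 = p'.2.1
  iseqv := by
    refine ⟨fun x => ⟨AlgEquiv.refl, rfl, rfl⟩, ?_, ?_⟩
    · rintro x y ⟨σ, h, h'⟩
      exact ⟨σ.symm, by rw [← h, σ.symm_apply_apply], by rw [← h', σ.symm_apply_apply]⟩
    · rintro x y z ⟨σ, h1, h2⟩ ⟨τ, h1', h2'⟩
      exact ⟨σ.trans τ, by rw [AlgEquiv.trans_apply, h1, h1'],
        by rw [AlgEquiv.trans_apply, h2, h2']⟩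

noncomputable def rsE {f : M[X]} (hf : f ≠ 0) : RS f ≃ Rt f :=
  Equiv.subtypeEquivRight fun x => by
    rw [mem_rootSet]
    exact ⟨fun h => h.2, fun h => ⟨hf, h⟩⟩

theorem card_c1 {f : M[X]} (hf : f ≠ 0) : Nat.card (Quotient (c1 f)) = cc f := by
  rw [← card_r1]
  exact Nat.card_congr (Quotient.congr (rsE hf) fun a b => Iff.rfl)

theorem card_c2 {f g : M[X]} (hf : f ≠ 0) (hg : g ≠ 0) : Nat.card (Quotient (c2' f g)) = cc2 f g := by
  rw [← card_r2]
  exact Nat.card_congr (Quotient.congr ((rsE hf).prodCongr (rsE hg)) fun a b => Iff.rfl)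

/-- the permutation of the roots -/
noncomputable def permR (f : M[X]) (σ : AlgebraicClosure M ≃ₐ[M] AlgebraicClosure M) : RS f ≃ RS f where
  toFun x := ⟨σ x.1, by
    have h := x.2
    rw [mem_rootSet] at h ⊢
    refine ⟨h.1, ?_⟩
    have h2 := aeval_algHom_apply (σ : AlgebraicClosure M →ₐ[M] AlgebraicClosure M) x.1 f
    rw [h.2, map_zero] at h2
    exact h2⟩
  invFun x := ⟨σ.symm x.1, by
    have h := x.2
    rw [mem_rootSet] at h ⊢
    refine ⟨h.1, ?_⟩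
    have h2 := aeval_algHom_apply (σ.symm : AlgebraicClosure M →ₐ[M] AlgebraicClosure M) x.1 f
    rw [h.2, map_zero] at h2
    exact h2⟩
  left_inv x := Subtype.ext (σ.symm_apply_apply x.1)
  right_inv x := Subtype.ext (σ.apply_symm_apply x.1)

theorem card_RS {f : M[X]} (hs : f.Separable) : Fintype.card (RS f) = f.natDegree :=
  card_rootSet_eq_natDegree hs (IsAlgClosed.splits _)

/-- **The rank of the lattice of the lines.** -/
theorem rank_lines {f g : M[X]} (hfs : f.Separable) (hgs : g.Separable) {n : ℕ} (hn : n ≠ 0)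
    (hfn : f.natDegree = n) (hgn : g.natDegree = n) :
    (Module.finrank ℚ (inv (c2' f g) ⧸ nt (c2' f g) n) : ℤ) = 2 + cc2 f g - cc f - cc g := by
  have hI : Fintype.card (RS f) = n := by rw [card_RS hfs, hfn]
  have hJ : Fintype.card (RS g) = n := by rw [card_RS hgs, hgn]
  have : Nonempty (RS f) := Fintype.card_pos_iff.1 (by rw [hI]; exact Nat.pos_of_ne_zero hn)
  have : Nonempty (RS g) := Fintype.card_pos_iff.1 (by rw [hJ]; exact Nat.pos_of_ne_zero hn)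
  rw [finrank_ns (s1 := c1 f) (s2 := c1 g) hI hJ, card_c1 hfs.ne_zero, card_c1 hgs.ne_zero,
    card_c2 hfs.ne_zero hgs.ne_zero]
  · rintro p p' ⟨σ, h1, h2⟩
    exact ⟨⟨σ, h1⟩, ⟨σ, h2⟩⟩
  · rintro x x' ⟨σ, h⟩
    exact ⟨permR g σ, fun y => ⟨σ, h, rfl⟩⟩
  · rintro y y' ⟨σ, h⟩
    exact ⟨permR f σ, fun x => ⟨σ, rfl, h⟩⟩

end

section
variable {k : Type} [Field k] [NumberField k]

/-- a bounded function does not contribute -/
theorem residue_bdd {S : Finset (HeightOneSpectrum (𝓞 k))} {b : HeightOneSpectrum (𝓞 k) → ℝ}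
    {B : ℝ} (h : ∀ v, |b v| ≤ B) : HasResidue S b 2 0 := by
  have hB : 0 ≤ |B| := abs_nonneg B
  have h1 : HasResidue S (fun v => b v / (Ideal.absNorm v.asIdeal : ℝ)) 1 0 := by
    refine residue_small hB fun v => ?_
    have hn : (1 : ℝ) ≤ (Ideal.absNorm v.asIdeal : ℝ) := by
      have h2 := Pool.Agent.H921R2.TatePole.two_le_nm v
      have h3 : 2 ≤ Ideal.absNorm v.asIdeal := h2
      exact_mod_cast (by omega : 1 ≤ Ideal.absNorm v.asIdeal)
    have h0 : (0 : ℝ) < (Ideal.absNorm v.asIdeal : ℝ) := by linarith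
    rw [abs_div, abs_of_pos h0, div_mul_eq_mul_div, div_le_iff₀ h0]
    have h4 : √(Ideal.absNorm v.asIdeal : ℝ) ≤ (Ideal.absNorm v.asIdeal : ℝ) := by
      rw [Real.sqrt_le_left h0.le]
      nlinarith
    exact mul_le_mul ((h v).trans (le_abs_self B)) h4 (Real.sqrt_nonneg _) hB
  have h2 := residue_shift h1
  convert h2 using 2 with v
  have h0 : (Ideal.absNorm v.asIdeal : ℝ) ≠ 0 := by
    have h2 := Pool.Agent.H921R2.TatePole.two_le_nm v
    have h3 : 2 ≤ Ideal.absNorm v.asIdeal := h2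
    exact_mod_cast (by omega : Ideal.absNorm v.asIdeal ≠ 0)
  field_simp

open Classical in
/-- the average of the traces -/
theorem avg_eq {R : Type} [CommRing R] [Algebra.FiniteType ℤ R] [Algebra (𝓞 k) R] (n : ℕ)
    (η N : R) (f g : R[X]) (m : ℕ) (v : HeightOneSpectrum (𝓞 k)) :
    ((Nat.card (𝓞 k ⧸ v.asIdeal) : ℝ) ^ m)⁻¹ *
      ∑ᶠ φ : {φ : R →+* 𝓞 k ⧸ v.asIdeal //
        φ.comp (algebraMap (𝓞 k) R) = Ideal.Quotient.mk v.asIdeal ∧ φ N ≠ 0 ∧ φ η ≠ 0 ∧
          (f.map φ).Separable ∧ (g.map φ).Separable},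
        ((points (𝓞 k ⧸ v.asIdeal) n (φ.1 η) (f.map φ.1) (g.map φ.1) : ℝ) - 1 -
          (Nat.card (𝓞 k ⧸ v.asIdeal) : ℝ) ^ 2) =
    (Ideal.absNorm v.asIdeal : ℝ) * avg (tw n) (fam f g η) N m v := by
  have hfin := Pool.Agent.H341R2.finite_v v
  let _ : Fintype (𝓞 k ⧸ v.asIdeal) := Fintype.ofFinite _
  let _ : Fintype (R →+* 𝓞 k ⧸ v.asIdeal) := Fintype.ofFinite _
  set F := 𝓞 k ⧸ v.asIdeal with hF
  have hq : (Ideal.absNorm v.asIdeal : ℝ) = (Nat.card F : ℝ) := by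
    rw [hF, Ideal.absNorm_apply, Submodule.cardQuot_apply]
  have hq0 : (Nat.card F : ℝ) ≠ 0 := by
    have : 0 < Nat.card F := Nat.card_pos
    exact_mod_cast this.ne'
  unfold avg
  rw [sR_eq, finsum_sub (fun φ : R →+* F => φ.comp (algebraMap (𝓞 k) R) =
    Ideal.Quotient.mk v.asIdeal ∧ φ N ≠ 0 ∧ φ η ≠ 0 ∧ (f.map φ).Separable ∧ (g.map φ).Separable)
    (fun φ => ((points F n (φ η) (f.map φ) (g.map φ) : ℝ) - 1 - (Nat.card F : ℝ) ^ 2)), hq]
  rw [mul_left_comm]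
  congr 1
  rw [mul_sum]
  refine sum_congr rfl fun φ _ => ?_
  have e1 : ((X - C (φ η) : F[X])).coeff 0 = -φ η := by simp
  have e2 : tw n F (fun j => (fam f g η j).map φ) =
      if (f.map φ).Separable ∧ (g.map φ).Separable ∧ φ η ≠ 0 then
        ((points F n (φ η) (f.map φ) (g.map φ) : ℝ) - 1 - (Nat.card F : ℝ) ^ 2) / (Nat.card F : ℝ)
      else 0 := by
    have h1 : (fun j => (fam f g η j).map φ) = fam (f.map φ) (g.map φ) (φ η) :=
      funext fun j => fam_map f g η φ j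
    rw [h1]
    unfold tw
    show (if (f.map φ).Separable ∧ (g.map φ).Separable ∧ ((X - C (φ η) : F[X])).coeff 0 ≠ 0 then
      ((sol n (-((X - C (φ η) : F[X])).coeff 0) (f.map φ) (g.map φ) : ℝ) /
        ((Nat.card F : ℝ) - 1) - 1 - (Nat.card F : ℝ) ^ 2) / (Nat.card F : ℝ) else 0) = _
    rw [e1, neg_neg, points_sol]
    simp only [neg_ne_zero]
  rw [e2]
  by_cases h1 : φ.comp (algebraMap (𝓞 k) R) = Ideal.Quotient.mk v.asIdeal ∧ φ N ≠ 0
  · rw [if_pos h1]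
    by_cases h2 : (f.map φ).Separable ∧ (g.map φ).Separable ∧ φ η ≠ 0
    · rw [if_pos h2, if_pos ⟨h1.1, h1.2, h2.2.2, h2.1, h2.2.1⟩]
      field_simp
    · rw [if_neg h2, if_neg, mul_zero]
      rintro ⟨-, -, h3, h4, h5⟩
      exact h2 ⟨h4, h5, h3⟩
  · rw [if_neg h1, if_neg, mul_zero]
    rintro ⟨h3, h4, -⟩
    exact h1 ⟨h3, h4⟩

end

end Pool.Agent.U437.JS
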