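import Pool.Agent.U437.JS.Sum

/-!
# The points of a projective variety and the nonzero vectors
-/

set_option autoImplicit false
set_option linter.all false

open Polynomial

namespace Pool.Agent.U437.JS

section
variable {F V : Type} [Field F] [AddCommGroup V] [Module F V]

/-- the nonzero vectors of a cone -/
noncomputable def coneEquiv (Q : V → Prop) (hQ : ∀ (c : Fˣ) (v : V), Q (c • v) ↔ Q v) :
    {P : Projectivization F V // Q P.rep} × Fˣ ≃ {v : V // v ≠ 0 ∧ Q v} := by
  refine Equiv.ofBijective (fun w => ⟨w.2 • w.1.1.rep, ?_, ?_⟩) ⟨?_, ?_⟩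
  · intro h
    exact w.1.1.rep_nonzero ((smul_eq_zero_iff_eq w.2).1 h)
  · exact (hQ _ _).2 w.1.2
  · rintro ⟨⟨P, hP⟩, u⟩ ⟨⟨P', hP'⟩, u'⟩ h
    have h1 : u • P.rep = u' • P'.rep := congrArg Subtype.val h
    have h2 : P = P' := by
      rw [← P.mk_rep, ← P'.mk_rep, Projectivization.mk_eq_mk_iff]
      refine ⟨u⁻¹ * u', ?_⟩
      rw [mul_smul, ← h1, inv_smul_smul]
    subst h2
    have h3 : u = u' := by
      apply Units.ext
      have h4 : ((u : F) - u') • P.rep = 0 := by
        rw [sub_smul, sub_eq_zero]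
        exact h1
      rcases smul_eq_zero.1 h4 with h5 | h5
      · exact sub_eq_zero.1 h5
      · exact absurd h5 P.rep_nonzero
    subst h3
    rfl
  · rintro ⟨v, hv, hq⟩
    obtain ⟨a, ha⟩ := Projectivization.exists_smul_eq_mk_rep F v hv
    have hQ' : Q (Projectivization.mk F v hv).rep := by
      rw [← ha]
      exact (hQ a v).2 hq
    refine ⟨(⟨Projectivization.mk F v hv, hQ'⟩, a⁻¹), Subtype.ext ?_⟩
    show a⁻¹ • (Projectivization.mk F v hv).rep = v
    rw [← ha, inv_smul_smul]

end

/-- the number of the points of the surface -/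
noncomputable def points (F : Type) [Field F] (n : ℕ) (a : F) (f g : F[X]) : ℕ :=
  Nat.card {P : Projectivization F (Fin 4 → F) //
    a * bf n f (P.rep 0) (P.rep 1) = bf n g (P.rep 2) (P.rep 3)}

theorem points_sol (F : Type) [Field F] [Finite F] (n : ℕ) (a : F) (f g : F[X]) :
    (points F n a f g : ℝ) = (sol n a f g : ℝ) / ((Nat.card F : ℝ) - 1) := by
  classical
  let _ := Fintype.ofFinite F
  have h1 := coneEquiv (F := F) (V := Fin 4 → F)
    (fun v => a * bf n f (v 0) (v 1) = bf n g (v 2) (v 3)) (fun c v => by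
      show a * bf n f ((c : F) * v 0) ((c : F) * v 1) = bf n g ((c : F) * v 2) ((c : F) * v 3) ↔ _
      rw [bf_smul, bf_smul]
      have hc : (c : F) ^ n ≠ 0 := pow_ne_zero _ c.ne_zero
      constructor
      · intro h
        apply mul_left_cancel₀ hc
        linear_combination h
      · intro h
        linear_combination (c : F) ^ n * h)
  have h2 : {v : Fin 4 → F // v ≠ 0 ∧ a * bf n f (v 0) (v 1) = bf n g (v 2) (v 3)} ≃
      {x : (F × F) × (F × F) // x ≠ 0 ∧ a * bf n f x.1.1 x.1.2 = bf n g x.2.1 x.2.2} := by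
    let E : (Fin 4 → F) ≃ (F × F) × (F × F) :=
      { toFun := fun v => ((v 0, v 1), (v 2, v 3))
        invFun := fun x => ![x.1.1, x.1.2, x.2.1, x.2.2]
        left_inv := fun v => by
          funext i
          fin_cases i <;> rfl
        right_inv := fun x => rfl }
    refine Equiv.subtypeEquiv E fun v => ?_
    have h3 : E v ≠ 0 ↔ v ≠ 0 := by
      rw [not_iff_not]
      constructor
      · intro h
        exact E.injective (h.trans (by rfl))
      · rintro rfl
        rfl
    rw [h3]
    rfl
  have h3 := Nat.card_congr (h1.trans h2)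
  rw [Nat.card_prod] at h3
  have h4 : Nat.card Fˣ = Nat.card F - 1 := by
    rw [Nat.card_eq_fintype_card, Nat.card_eq_fintype_card, Fintype.card_units]
  have h5 : 1 < Nat.card F := Finite.one_lt_card
  have h6 : (points F n a f g : ℝ) * ((Nat.card F : ℝ) - 1) = sol n a f g := by
    have h7 : points F n a f g * (Nat.card F - 1) = sol n a f g := by
      rw [← h4]
      exact h3
    rw [← h7, Nat.cast_mul, Nat.cast_sub h5.le, Nat.cast_one]
  rw [eq_div_iff]
  · exact h6
  · have : (1 : ℝ) < (Nat.card F : ℝ) := by exact_mod_cast h5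
    linarith

end Pool.Agent.U437.JS
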