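import Pool.Agent.U437.JS.Fac

/-!
# The numbers of the roots of two polynomials: asymptotics
-/

set_option autoImplicit false
set_option linter.all false
set_option maxHeartbeats 1000000

open Polynomial Finset NumberField

namespace Pool.Agent.U437.JS

open Pool.Agent.R410.LW (FG frac_of_closure ft_int)
open Pool.Agent.R410.BS (cF hom_le)
open Pool.Agent.R410.NG

theorem sT_one {J R : Type} [CommRing R] (w : Wt J) (g : J → R[X]) (F : Type) [Field F]
    [Fintype (R →+* F)] : sT w g 1 F = ∑ φ : R →+* F, w F (fun j => (g j).map φ) := by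
  classical
  rw [sT_eq]
  refine sum_congr rfl fun φ _ => ?_
  rw [if_pos]
  rw [map_one]
  exact one_ne_zero

/-- the number of the closed points of `f = 0` -/
noncomputable def cc {M : Type} [CommRing M] (f : M[X]) : ℕ := Nat.card (CP f)

/-- the closed points of `f(x) = 0`, `g(y) = 0` -/
abbrev CP2 {M : Type} [CommRing M] (f g : M[X]) : Type :=
  Σ i : CP f, CP (g.map (AdjoinRoot.of i.1))

/-- the number of the closed points of `f(x) = 0`, `g(y) = 0` -/
noncomputable def cc2 {M : Type} [CommRing M] (f g : M[X]) : ℕ := Nat.card (CP2 f g)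

section
variable {M : Type} [Field M] [CharZero M] {δ : M[X]} [Fact (Irreducible δ)]
variable {A : Type} [CommRing A] [IsDomain A] [Algebra A M] [IsFractionRing A M]
  [Algebra.FiniteType ℤ A]

/-- the number of the points of a finite covering -/
theorem asy_cov1 (hM : FG M) {d : ℕ} (hd : Algebra.trdeg ℚ M = d) {δA : A[X]} (hm : δA.Monic)
    (h : δA.map (algebraMap A M) = δ) :
    Asy (fun F _ _ => (Nat.card (AdjoinRoot δA →+* F) : ℝ)) d 1 := by
  letI : Algebra (AdjoinRoot δA) (AdjoinRoot δ) := (jA δA h).toAlgebra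
  have h1 : IsDomain (AdjoinRoot δA) := jA_dom hm h
  have h2 : IsFractionRing (AdjoinRoot δA) (AdjoinRoot δ) := jA_frac hm h
  have h4 : Algebra.FiniteType ℤ (AdjoinRoot δA) := inferInstance
  have h5 := ft_int _ h4
  exact asy_hom (M := AdjoinRoot δ) (fg_adj hM) (trdeg_adj hd) (AdjoinRoot δA)

end

section
variable {M : Type} [Field M] [CharZero M]

/-- the number of the roots for one model -/
theorem asy_roots1 (hM : FG M) {d : ℕ} (hd : Algebra.trdeg ℚ M = d) {f : M[X]} (hf : f.Monic)
    (hs : f.Separable) : ∃ (A : Type) (_ : CommRing A) (_ : IsDomain A) (_ : Algebra A M)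
      (_ : IsFractionRing A M) (_ : Algebra.FiniteType ℤ A) (fA : A[X]),
      fA.map (algebraMap A M) = f ∧ Asy (fun F _ _ => sT wr (fun _ => fA) 1 F) d (cc f) := by
  classical
  have hfin : Finite (CP f) := cp_finite hf.ne_zero
  let _ : Fintype (CP f) := Fintype.ofFinite _
  obtain ⟨A, hft, hfr, -, δA, h1, h2⟩ := exists_ringC (k := ℚ) hM (fun i : CP f => i.1)
  have hinj : Function.Injective (algebraMap A M) := IsFractionRing.injective A M
  have hmon : ∀ i, (δA i).Monic := fun i =>
    Polynomial.monic_of_injective hinj (by rw [h1]; exact i.2.1)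
  refine ⟨A, inferInstance, inferInstance, inferInstance, hfr, hft, ∏ i, δA i, ?_, ?_⟩
  · rw [Polynomial.map_prod, prod_congr rfl fun i _ => h1 i]
    exact cp_prod hf hs
  · have t1 : ∀ i ∈ (univ : Finset (CP f)),
        Asy (fun F _ _ => (Nat.card (AdjoinRoot (δA i) →+* F) : ℝ)) d 1 := by
      intro i _
      have : Fact (Irreducible i.1) := ⟨i.2.2.1⟩
      exact asy_cov1 (δ := i.1) hM hd (hmon i) (h1 i)
    have t2 := Asy.sum univ _ _ t1
    have e : ∑ _i : CP f, (1 : ℝ) = cc f := by
      rw [sum_const, nsmul_eq_mul, mul_one, card_univ, cc, Nat.card_eq_fintype_card]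
    rw [e] at t2
    refine t2.congr 1 one_ne_zero fun F _ _ _ => ?_
    let _ := Fintype.ofFinite F
    have hfA : Finite (A →+* F) := inferInstance
    let _ := Fintype.ofFinite (A →+* F)
    have hfi : ∀ i, Finite (AdjoinRoot (δA i) →+* F) := fun i =>
      Finite.of_equiv _ (adjEquiv (F := F) (δA i)).symm
    let _ : ∀ i, Fintype (AdjoinRoot (δA i) →+* F) := fun i => Fintype.ofFinite _
    rw [sT_one]
    have h3 := fib_sum (F := F) δA (fun i j hij => h2 i j (cp_cop i j hij)) (fun _ => 1)
    have h4 : ∀ i, ∑ χ : AdjoinRoot (δA i) →+* F, (1 : ℝ) =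
        (Nat.card (AdjoinRoot (δA i) →+* F) : ℝ) := by
      intro i
      rw [sum_const, nsmul_eq_mul, mul_one, card_univ, Nat.card_eq_fintype_card]
    rw [sum_congr rfl fun i _ => h4 i] at h3
    rw [← h3]
    refine sum_congr rfl fun ψ _ => ?_
    rw [mul_one]
    rfl

/-- **The number of the roots.** -/
theorem asy_roots (hM : FG M) {d : ℕ} (hd : Algebra.trdeg ℚ M = d) {f : M[X]} (hf : f.Monic)
    (hs : f.Separable) {R : Type} [CommRing R] [IsDomain R] [Algebra.FiniteType ℤ R] [Algebra R M]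
    [IsFractionRing R M] {fR : R[X]} (hfR : fR.map (algebraMap R M) = f) {N : R} (hN : N ≠ 0) :
    Asy (fun F _ _ => sT wr (fun _ => fR) N F) d (cc f) := by
  obtain ⟨A, i1, i2, i3, i4, i5, fA, h1, h2⟩ := asy_roots1 hM hd hf hs
  have hinj : Function.Injective (algebraMap R M) := IsFractionRing.injective R M
  have hm : fR.Monic := Polynomial.monic_of_injective hinj (by rw [hfR]; exact hf)
  refine asy_any (K := M) (isWt_wr fR.natDegree) hd.le (g' := fun _ => fA) (fun _ => ?_)
    (fun _ => ⟨hm, rfl⟩) hN one_ne_zero h2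
  rw [hfR, h1]

/-- the pairs of roots for one model -/
theorem asy_pairs1 (hM : FG M) {d : ℕ} (hd : Algebra.trdeg ℚ M = d) {f g : M[X]} (hf : f.Monic)
    (hs : f.Separable) (hg : g.Monic) (hsg : g.Separable) :
    ∃ (A : Type) (_ : CommRing A) (_ : IsDomain A) (_ : Algebra A M)
      (_ : IsFractionRing A M) (_ : Algebra.FiniteType ℤ A) (fA gA : A[X]),
      fA.map (algebraMap A M) = f ∧ gA.map (algebraMap A M) = g ∧
      Asy (fun F _ _ => sT wr2 (![fA, gA]) 1 F) d (cc2 f g) := by
  classical
  have hfin : Finite (CP f) := cp_finite hf.ne_zero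
  let _ : Fintype (CP f) := Fintype.ofFinite _
  obtain ⟨A, hft, hfr, -, δA', h1', h2'⟩ := exists_ringC (k := ℚ) hM
    (fun i : Option (CP f) => i.elim g (fun i => i.1))
  have hinj : Function.Injective (algebraMap A M) := IsFractionRing.injective A M
  obtain ⟨δA, hδA⟩ : ∃ δA : CP f → A[X], δA = fun i => δA' (some i) := ⟨_, rfl⟩
  obtain ⟨gA, hgA⟩ : ∃ gA : A[X], gA = δA' none := ⟨_, rfl⟩
  have h1 : ∀ i, (δA i).map (algebraMap A M) = i.1 := fun i => by
    rw [hδA]
    exact h1' (some i)
  have h1g : gA.map (algebraMap A M) = g := by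
    rw [hgA]
    exact h1' none
  have h2 : ∀ i j, i ≠ j → IsCoprime (δA i) (δA j) := fun i j hij => by
    rw [hδA]
    exact h2' (some i) (some j) (cp_cop i j hij)
  have hmon : ∀ i, (δA i).Monic := fun i =>
    Polynomial.monic_of_injective hinj (by rw [h1]; exact i.2.1)
  refine ⟨A, inferInstance, inferInstance, inferInstance, hfr, hft, ∏ i, δA i, gA, ?_, h1g, ?_⟩
  · rw [Polynomial.map_prod, prod_congr rfl fun i _ => h1 i]
    exact cp_prod hf hs
  · have t1 : ∀ i ∈ (univ : Finset (CP f)),
        Asy (fun F _ _ => sT wr (fun _ : Unit => gA.map (AdjoinRoot.of (δA i))) 1 F) d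
          (cc (g.map (AdjoinRoot.of i.1))) := by
      intro i _
      have : Fact (Irreducible i.1) := ⟨i.2.2.1⟩
      letI : Algebra (AdjoinRoot (δA i)) (AdjoinRoot i.1) := (jA (δA i) (h1 i)).toAlgebra
      have k1 : IsDomain (AdjoinRoot (δA i)) := jA_dom (hmon i) (h1 i)
      have k2 : IsFractionRing (AdjoinRoot (δA i)) (AdjoinRoot i.1) := jA_frac (hmon i) (h1 i)
      have k4 : Algebra.FiniteType ℤ (AdjoinRoot (δA i)) := inferInstance
      have k5 := ft_int _ k4
      refine asy_roots (M := AdjoinRoot i.1) (fg_adj hM) (trdeg_adj hd) (hg.map _) hsg.map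
        (R := AdjoinRoot (δA i)) ?_ one_ne_zero
      rw [Polynomial.map_map, ← h1g, Polynomial.map_map]
      congr 1
      refine RingHom.ext fun a => ?_
      show jA (δA i) (h1 i) (AdjoinRoot.of (δA i) a) = AdjoinRoot.of i.1 (algebraMap A M a)
      rw [← AdjoinRoot.mk_C, jA_mk, Polynomial.map_C, AdjoinRoot.mk_C]
    have t2 := Asy.sum univ _ _ t1
    have e : ∑ i : CP f, (cc (g.map (AdjoinRoot.of i.1)) : ℝ) = cc2 f g := by
      have hfi : ∀ i : CP f, Finite (CP (g.map (AdjoinRoot.of i.1))) := by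
        intro i
        have : Fact (Irreducible i.1) := ⟨i.2.2.1⟩
        exact cp_finite (hg.map _).ne_zero
      unfold cc2 cc
      rw [Nat.card_sigma]
      push_cast
      rfl
    rw [e] at t2
    refine t2.congr 1 one_ne_zero fun F _ _ _ => ?_
    let _ := Fintype.ofFinite F
    have hfA : Finite (A →+* F) := inferInstance
    let _ := Fintype.ofFinite (A →+* F)
    have hfi : ∀ i, Finite (AdjoinRoot (δA i) →+* F) := fun i =>
      Finite.of_equiv _ (adjEquiv (F := F) (δA i)).symm
    let _ : ∀ i, Fintype (AdjoinRoot (δA i) →+* F) := fun i => Fintype.ofFinite _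
    rw [sT_one]
    simp only [sT_one]
    have h3 := fib_sum (F := F) δA h2 (fun ψ => (nr (gA.map ψ) : ℝ))
    have h4 : ∀ i, ∑ χ : AdjoinRoot (δA i) →+* F,
        (nr (gA.map (χ.comp (AdjoinRoot.of (δA i)))) : ℝ) =
        ∑ χ : AdjoinRoot (δA i) →+* F,
          wr F (fun j : Unit => (gA.map (AdjoinRoot.of (δA i))).map χ) := by
      intro i
      refine sum_congr rfl fun χ _ => ?_
      unfold wr
      rw [Polynomial.map_map]
    rw [sum_congr rfl fun i _ => h4 i] at h3
    rw [← h3]
    refine sum_congr rfl fun ψ _ => ?_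
    rfl

/-- **The pairs of roots.** -/
theorem asy_pairs (hM : FG M) {d : ℕ} (hd : Algebra.trdeg ℚ M = d) {f g : M[X]} (hf : f.Monic)
    (hs : f.Separable) (hg : g.Monic) (hsg : g.Separable)
    {R : Type} [CommRing R] [IsDomain R] [Algebra.FiniteType ℤ R] [Algebra R M]
    [IsFractionRing R M] {fR gR : R[X]} (hfR : fR.map (algebraMap R M) = f)
    (hgR : gR.map (algebraMap R M) = g) {N : R} (hN : N ≠ 0) :
    Asy (fun F _ _ => sT wr2 (![fR, gR]) N F) d (cc2 f g) := by
  obtain ⟨A, i1, i2, i3, i4, i5, fA, gA, h1, h1', h2⟩ := asy_pairs1 hM hd hf hs hg hsg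
  have hinj : Function.Injective (algebraMap R M) := IsFractionRing.injective R M
  have hm : fR.Monic := Polynomial.monic_of_injective hinj (by rw [hfR]; exact hf)
  have hm' : gR.Monic := Polynomial.monic_of_injective hinj (by rw [hgR]; exact hg)
  refine asy_any (K := M) (isWt_wr2 ![fR.natDegree, gR.natDegree]) hd.le (g' := ![fA, gA])
    (fun j => ?_) (fun j => ?_) hN one_ne_zero h2
  · fin_cases j
    · show fR.map _ = fA.map _
      rw [hfR, h1]
    · show gR.map _ = gA.map _
      rw [hgR, h1']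
  · fin_cases j
    · exact ⟨hm, rfl⟩
    · exact ⟨hm', rfl⟩

end

end Pool.Agent.U437.JS
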