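import Pool.Agent.U437.JS.Wgt

/-!
# The residue
-/

set_option autoImplicit false
set_option linter.all false
set_option maxHeartbeats 1000000

open Polynomial Finset NumberField IsDedekindDomain

namespace Pool.Agent.U437.JS

open Pool.Agent.R410.LW (FG frac_of_closure ft_int)
open Pool.Agent.R410.BS (cF hom_le)
open Pool.Agent.R410.NG
open Pool.Agent.Y707.PR (HasResidue series)

section
variable {M : Type} [Field M] {k : Type} [Field k] [NumberField k] [Algebra k M]

/-- the ring of coefficients -/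
theorem exists_jdat (hM : FG M) {f g π ρ : M[X]} (hf : f.Monic) (hfs : f.Separable) (hg : g.Monic)
    (hgs : g.Separable) (hπ : π.Monic) (hs : π.Separable) (hρ : ρ.Monic) (hc : IsCoprime π ρ)
    {c : M} (hc0 : c ≠ 0) :
    ∃ A : Subalgebra ℤ M, Algebra.FiniteType ℤ A ∧ IsFractionRing A M ∧
      (∀ z : 𝓞 k, algebraMap k M z ∈ A) ∧ ∃ (fA gA πA ρA : A[X]) (cA : A),
      fA.map (algebraMap A M) = f ∧ gA.map (algebraMap A M) = g ∧ πA.map (algebraMap A M) = π ∧
      ρA.map (algebraMap A M) = ρ ∧ algebraMap A M cA = c ∧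
      fA.Monic ∧ gA.Monic ∧ πA.Monic ∧ ρA.Monic ∧ fA.Separable ∧ gA.Separable ∧ πA.Separable ∧
      IsCoprime πA ρA ∧ IsUnit cA := by
  obtain ⟨A, h1, h2, h3, q, h4, h5⟩ := exists_ringC (k := k) hM
    (![f, derivative f, g, derivative g, π, derivative π, ρ, C c, 0] : Fin 9 → M[X])
  have hinjA : Function.Injective (algebraMap A M) := IsFractionRing.injective A M
  have hinj : Function.Injective (Polynomial.map (algebraMap A M)) :=
    Polynomial.map_injective _ hinjA
  have e0 : (q 0).map (algebraMap A M) = f := h4 0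
  have e1 : (q 1).map (algebraMap A M) = derivative f := h4 1
  have e2 : (q 2).map (algebraMap A M) = g := h4 2
  have e3 : (q 3).map (algebraMap A M) = derivative g := h4 3
  have e4 : (q 4).map (algebraMap A M) = π := h4 4
  have e5 : (q 5).map (algebraMap A M) = derivative π := h4 5
  have e6 : (q 6).map (algebraMap A M) = ρ := h4 6
  have e7 : (q 7).map (algebraMap A M) = C c := h4 7
  have e8 : (q 8).map (algebraMap A M) = 0 := h4 8
  have d1 : q 1 = derivative (q 0) := hinj (by
    show (q 1).map (algebraMap A M) = (derivative (q 0)).map (algebraMap A M)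
    rw [e1, ← derivative_map, e0])
  have d3 : q 3 = derivative (q 2) := hinj (by
    show (q 3).map (algebraMap A M) = (derivative (q 2)).map (algebraMap A M)
    rw [e3, ← derivative_map, e2])
  have d5 : q 5 = derivative (q 4) := hinj (by
    show (q 5).map (algebraMap A M) = (derivative (q 4)).map (algebraMap A M)
    rw [e5, ← derivative_map, e4])
  have d8 : q 8 = 0 := hinj (by
    show (q 8).map (algebraMap A M) = (0 : A[X]).map (algebraMap A M)
    rw [e8, Polynomial.map_zero])
  have hcA : algebraMap A M ((q 7).coeff 0) = c := by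
    rw [← coeff_map, e7, coeff_C_zero]
  have d7 : q 7 = C ((q 7).coeff 0) := hinj (by
    show (q 7).map (algebraMap A M) = (C ((q 7).coeff 0)).map (algebraMap A M)
    rw [e7, Polynomial.map_C, hcA])
  refine ⟨A, h1, h2, h3, q 0, q 2, q 4, q 6, (q 7).coeff 0, e0, e2, e4, e6, hcA,
    monic_of_injective hinjA (by rw [e0]; exact hf), monic_of_injective hinjA (by rw [e2]; exact hg),
    monic_of_injective hinjA (by rw [e4]; exact hπ), monic_of_injective hinjA (by rw [e6]; exact hρ),
    ?_, ?_, ?_, h5 4 6 hc, ?_⟩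
  · have := h5 0 1 hfs
    rwa [d1] at this
  · have := h5 2 3 hgs
    rwa [d3] at this
  · have := h5 4 5 hs
    rwa [d5] at this
  · have h6 : IsCoprime (C c : M[X]) 0 := by
      rw [isCoprime_zero_right]
      exact isUnit_C.2 (isUnit_iff_ne_zero.2 hc0)
    have h7 := h5 7 8 h6
    rw [d8, isCoprime_zero_right, d7, isUnit_C] at h7
    exact h7

end

theorem fam_map {R S : Type} [CommRing R] [CommRing S] (f g : R[X]) (a : R) (φ : R →+* S)
    (j : Fin 3) : (fam f g a j).map φ = fam (f.map φ) (g.map φ) (φ a) j := by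
  fin_cases j
  · rfl
  · rfl
  · show (X - C a).map φ = X - C (φ a)
    rw [Polynomial.map_sub, Polynomial.map_X, Polynomial.map_C]

section
variable {A : Type} [CommRing A] {F : Type} [Field F] [Fintype F] [Fintype (A →+* F)]

theorem sT_line (w : Wt (Fin 3)) (f g h : A[X]) [Finite (A[X] →+* F)] :
    sT w (fam (f.map C) (g.map C) h) 1 F =
      ∑ ψ : A →+* F, ∑ x : F, w F (fam (f.map ψ) (g.map ψ) ((h.map ψ).eval x)) := by
  classical
  let _ := Fintype.ofFinite (A[X] →+* F)
  rw [sT_one]
  have e1 : ∀ φ : A[X] →+* F, w F (fun j => (fam (f.map C) (g.map C) h j).map φ) =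
      w F (fam (f.map (φ.comp C)) (g.map (φ.comp C)) ((h.map (φ.comp C)).eval (φ X))) := by
    intro φ
    congr 1
    funext j
    rw [fam_map, Polynomial.map_map, Polynomial.map_map]
    congr 1
    rw [eval_map]
    have h2 : φ = eval₂RingHom (φ.comp C) (φ X) := by
      apply Polynomial.ringHom_ext
      · intro a
        rw [coe_eval₂RingHom, eval₂_C]
        rfl
      · rw [coe_eval₂RingHom, eval₂_X]
    conv_lhs => rw [h2]
    rfl
  rw [sum_congr rfl fun φ _ => e1 φ]
  refine (Fintype.sum_equiv (polyEquiv (A := A) (F := F)) _ (fun u =>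
    w F (fam (f.map u.1) (g.map u.1) ((h.map u.1).eval u.2))) fun φ => rfl).trans ?_
  rw [Fintype.sum_prod_type]

end

section
variable {M : Type} [Field M] [CharZero M]
variable {A : Type} [CommRing A] [IsDomain A] [Algebra A M] [IsFractionRing A M]
  [Algebra.FiniteType ℤ A]

/-- **The asymptotic value.** -/
theorem asy_main (hM : FG M) {d : ℕ} (hd : Algebra.trdeg ℚ M = d) {n : ℕ} (hn : n ≠ 0)
    {fA gA πA ρA : A[X]} {cA : A} (hf : fA.Monic) (hfn : fA.natDegree = n) (hfs : fA.Separable)
    (hg : gA.Monic) (hgn : gA.natDegree = n) (hgs : gA.Separable) (hπ : πA.Monic)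
    (hs : πA.Separable) (hπd : πA.natDegree ≠ 0) (hρ : ρA.Monic) (hc : IsCoprime πA ρA)
    {e : ℕ} (hen : Nat.Coprime e n) (hcA : IsUnit cA) :
    Asy (fun F _ _ => sT (tw n) (fam (fA.map C) (gA.map C) (C cA * (πA ^ e * ρA))) 1 F) (d + 1)
      (2 + cc2 (fA.map (algebraMap A M)) (gA.map (algebraMap A M)) - cc (fA.map (algebraMap A M)) -
        cc (gA.map (algebraMap A M))) := by
  classical
  have t1 := asy_hom hM hd A
  have t2 := asy_pairs hM hd (hf.map (algebraMap A M)) (hfs.map) (hg.map (algebraMap A M)) (hgs.map)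
    (R := A) rfl rfl one_ne_zero
  have t3 := asy_roots hM hd (hf.map (algebraMap A M)) (hfs.map) (R := A) rfl one_ne_zero
  have t4 := asy_roots hM hd (hg.map (algebraMap A M)) (hgs.map) (R := A) rfl one_ne_zero
  have t5 := ((((t1.smul 2).add t2).add t3.neg).add t4.neg).mulq
  have er : (2 * 1 + (cc2 (fA.map (algebraMap A M)) (gA.map (algebraMap A M)) : ℝ) +
      -(cc (fA.map (algebraMap A M)) : ℝ) + -(cc (gA.map (algebraMap A M)) : ℝ)) =
      2 + cc2 (fA.map (algebraMap A M)) (gA.map (algebraMap A M)) - cc (fA.map (algebraMap A M)) -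
        cc (gA.map (algebraMap A M)) := by ring
  rw [er] at t5
  obtain ⟨C3, hC3, g3⟩ := hom_le (R := A) (K := M) (IsFractionRing.injective A M) hd.le
  refine t5.near ⟨C3 * (((πA ^ e * ρA).natDegree : ℝ) * cw n), 1,
    mul_nonneg hC3 (mul_nonneg (Nat.cast_nonneg _) (cw_nonneg n)), one_ne_zero, ?_⟩
  intro F _ _ _
  let _ := Fintype.ofFinite F
  have hfA : Finite (A →+* F) := inferInstance
  let _ := Fintype.ofFinite (A →+* F)
  have hfX : Finite (A[X] →+* F) := Finite.of_equiv _ (polyEquiv (A := A) (F := F)).symm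
  set q : ℝ := (Nat.card F : ℝ) with hq
  have hqF : q = (Fintype.card F : ℝ) := by rw [hq, Nat.card_eq_fintype_card]
  have hq0 : 0 ≤ q := Nat.cast_nonneg _
  set K0 : ℝ := ((πA ^ e * ρA).natDegree : ℝ) * cw n with hK0
  have hK0' : 0 ≤ K0 := mul_nonneg (Nat.cast_nonneg _) (cw_nonneg n)
  rw [sT_line, sT_one, sT_one, sT_one]
  have e1 : q * (2 * (Nat.card (A →+* F) : ℝ) +
      (∑ φ : A →+* F, wr2 F (fun j => (![fA, gA] j).map φ)) +
      -(∑ φ : A →+* F, wr F (fun j : Unit => fA.map φ)) +
      -(∑ φ : A →+* F, wr F (fun j : Unit => gA.map φ))) =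
      ∑ ψ : A →+* F, q * m0 (fA.map ψ) (gA.map ψ) := by
    have h2 : 2 * (Nat.card (A →+* F) : ℝ) = ∑ φ : A →+* F, (2 : ℝ) := by
      rw [sum_const, card_univ, nsmul_eq_mul, Nat.card_eq_fintype_card, mul_comm]
    rw [h2, ← sub_eq_add_neg, ← sub_eq_add_neg, ← sum_add_distrib, ← sum_sub_distrib,
      ← sum_sub_distrib, mul_sum]
    rfl
  have e2 : |∑ ψ : A →+* F, ∑ x : F, tw n F (fam (fA.map ψ) (gA.map ψ)
      (((C cA * (πA ^ e * ρA)).map ψ).eval x)) - ∑ ψ : A →+* F, q * m0 (fA.map ψ) (gA.map ψ)| ≤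
      (Nat.card (A →+* F) : ℝ) * (K0 * √q) := by
    rw [← sum_sub_distrib]
    refine (abs_sum_le_sum_abs _ _).trans ?_
    have h3 : ∀ ψ ∈ (univ : Finset (A →+* F)), |∑ x : F, tw n F (fam (fA.map ψ) (gA.map ψ)
        (((C cA * (πA ^ e * ρA)).map ψ).eval x)) - q * m0 (fA.map ψ) (gA.map ψ)| ≤ K0 * √q := by
      intro ψ _
      have h4 : (C cA * (πA ^ e * ρA)).map ψ = C (ψ cA) * ((πA.map ψ) ^ e * ρA.map ψ) := by
        rw [Polynomial.map_mul, Polynomial.map_mul, Polynomial.map_pow, Polynomial.map_C]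
      have h5 : ((πA.map ψ) ^ e * ρA.map ψ).natDegree = (πA ^ e * ρA).natDegree := by
        rw [← Polynomial.map_pow, ← Polynomial.map_mul]
        exact ((hπ.pow e).mul hρ).natDegree_map ψ
      have h6 := line_sum (F := F) hn (f := fA.map ψ) (g := gA.map ψ) (π := πA.map ψ)
        (ρ := ρA.map ψ) (hf.map ψ) (by rw [hf.natDegree_map ψ, hfn]) hfs.map (hg.map ψ)
        (by rw [hg.natDegree_map ψ, hgn]) hgs.map (hπ.map ψ) hs.map
        (by rw [hπ.natDegree_map ψ]; exact hπd) (hρ.map ψ) (hc.map (mapRingHom ψ)) hen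
        (c := ψ cA) (hcA.map ψ).ne_zero
      rw [h5, ← hqF] at h6
      rw [h4]
      exact h6
    refine (sum_le_sum h3).trans ?_
    rw [sum_const, card_univ, nsmul_eq_mul, Nat.card_eq_fintype_card]
  rw [e1]
  have hs2 : √q * √q = q := Real.mul_self_sqrt hq0
  calc _ ≤ ((Nat.card (A →+* F) : ℝ) * (K0 * √q)) * √q :=
        mul_le_mul_of_nonneg_right e2 (Real.sqrt_nonneg _)
    _ = (Nat.card (A →+* F) : ℝ) * (K0 * q) := by rw [mul_assoc, mul_assoc, hs2]
    _ ≤ (C3 * q ^ d) * (K0 * q) := mul_le_mul_of_nonneg_right (g3 F) (by positivity)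
    _ = _ := by ring

end

section
variable {M K : Type} [Field M] [CharZero M] [Field K] [CharZero K] [Algebra M K] {ω : K}
variable {k : Type} [Field k] [NumberField k] [Algebra k M]

/-- **The residue at `1` of the averages of the traces divided by `q`.** -/
theorem residue_one (hM : FG M) {d : ℕ} (hd : Algebra.trdeg ℚ M = d) (hω : Transcendental M ω)
    (htop : IntermediateField.adjoin M {ω} = ⊤) {n : ℕ} (hn : n ≠ 0) {f g π ρ : M[X]}
    (hf : f.Monic) (hfn : f.natDegree = n) (hfs : f.Separable) (hg : g.Monic)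
    (hgn : g.natDegree = n) (hgs : g.Separable) (hπ : π.Monic) (hs : π.Separable)
    (hπd : π.natDegree ≠ 0) (hρ : ρ.Monic) (hc : IsCoprime π ρ) {e : ℕ} (hen : Nat.Coprime e n)
    {c : M} (hc0 : c ≠ 0) (R : Type) [CommRing R] [IsDomain R] [Algebra.FiniteType ℤ R]
    [Algebra R K] [IsFractionRing R K] [Algebra (𝓞 k) R]
    (hk : ∀ z : 𝓞 k, algebraMap R K (algebraMap (𝓞 k) R z) = algebraMap M K (algebraMap k M z))
    {fR gR : R[X]} {η : R} (hfR : fR.map (algebraMap R K) = f.map (algebraMap M K))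
    (hgR : gR.map (algebraMap R K) = g.map (algebraMap M K))
    (hη : algebraMap R K η = aeval ω (C c * (π ^ e * ρ))) {N : R} (hN : N ≠ 0)
    (S : Finset (HeightOneSpectrum (𝓞 k))) :
    HasResidue S (fun v => avg (tw n) (fam fR gR η) N (d + 1) v) 1
      ((2 + cc2 f g - cc f - cc g : ℤ)) := by
  classical
  obtain ⟨A, hft, hfr, hAk, fA, gA, πA, ρA, cA, efA, egA, eπA, eρA, ecA, mf, mg, mπ, mρ, sf, sg, sπ,
    cop, ucA⟩ := exists_jdat (k := k) hM hf hfs hg hgs hπ hs hρ hc hc0
  have hAinj : Function.Injective (algebraMap A M) := IsFractionRing.injective A M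
  let φ : A[X] →+* K := phA (M := M) A ω
  let _ : Algebra A[X] K := φ.toAlgebra
  have _ : IsFractionRing A[X] K := phA_frac A hω htop
  have htr := trdeg_line hd hω htop
  let _ : Algebra (𝓞 k) A[X] := ((C : A →+* A[X]).comp (rho hAk)).toAlgebra
  have hft' : Algebra.FiniteType ℤ A[X] := inferInstance
  have hft'' := ft_int _ hft'
  have nf : fA.natDegree = n := by
    rw [← hfn, ← efA]
    exact (mf.natDegree_map _).symm
  have ng : gA.natDegree = n := by
    rw [← hgn, ← egA]
    exact (mg.natDegree_map _).symm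
  have nπ : πA.natDegree ≠ 0 := by
    rw [← mπ.natDegree_map (algebraMap A M), eπA]
    exact hπd
  have h0 := asy_main hM hd hn mf nf sf mg ng sg mπ sπ nπ mρ cop hen ucA
  rw [efA, egA] at h0
  obtain ⟨κ, iκ, L, iL, nL, α, hα, C0, N0, hC0, hN0, hasy⟩ := h0
  have hw := isWt_tw hn
  have hφC : φ.comp C = (algebraMap M K).comp (algebraMap A M) := by
    refine RingHom.ext fun z => ?_
    show phA (M := M) A ω (C z) = _
    rw [phA_apply, Polynomial.map_C, aeval_C]
    rfl
  have hRinj : Function.Injective (algebraMap R K) := IsFractionRing.injective R K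
  have mfR : fR.Monic := monic_of_injective hRinj (by rw [hfR]; exact hf.map _)
  have mgR : gR.Monic := monic_of_injective hRinj (by rw [hgR]; exact hg.map _)
  have nfR : fR.natDegree = n := by
    rw [← mfR.natDegree_map (algebraMap R K), hfR, hf.natDegree_map, hfn]
  have ngR : gR.natDegree = n := by
    rw [← mgR.natDegree_map (algebraMap R K), hgR, hg.natDegree_map, hgn]
  have hgB : ∀ j, (fam fR gR η j).map (algebraMap R K) =
      (fam (fA.map C) (gA.map C) (C cA * (πA ^ e * ρA)) j).map (algebraMap A[X] K) := by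
    intro j
    rw [fam_map, fam_map]
    show _ = fam ((fA.map C).map φ) ((gA.map C).map φ) (φ (C cA * (πA ^ e * ρA))) j
    have e1 : (fA.map C).map φ = fR.map (algebraMap R K) := by
      rw [Polynomial.map_map, hφC, ← Polynomial.map_map, efA, hfR]
    have e2 : (gA.map C).map φ = gR.map (algebraMap R K) := by
      rw [Polynomial.map_map, hφC, ← Polynomial.map_map, egA, hgR]
    have e3 : φ (C cA * (πA ^ e * ρA)) = algebraMap R K η := by
      show phA (M := M) A ω _ = _
      rw [phA_apply, hη, Polynomial.map_mul, Polynomial.map_mul, Polynomial.map_pow,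
        Polynomial.map_C, eπA, eρA, ecA]
    rw [e1, e2, e3]
  have hrho : (algebraMap R K).comp (algebraMap (𝓞 k) R) =
      (algebraMap A[X] K).comp (algebraMap (𝓞 k) A[X]) := by
    refine RingHom.ext fun z => ?_
    show algebraMap R K (algebraMap (𝓞 k) R z) = phA (M := M) A ω (C (rho hAk z))
    rw [hk, phA_apply, Polynomial.map_C, aeval_C]
    rfl
  have hα' : ∑ j, α j = ((2 + cc2 f g - cc f - cc g : ℤ) : ℝ) := by
    rw [hα]
    push_cast
    rfl
  refine all_models hw (e := d + 1) htr.le hrho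
    (g' := fam (fA.map C) (gA.map C) (C cA * (πA ^ e * ρA))) hgB (fun j => ?_) hN
    (N' := (1 : A[X])) one_ne_zero L α hα' ?_ ⟨C0, N0, hC0, hN0, fun F _ _ hF => hasy F hF⟩ S
  · fin_cases j
    · exact ⟨mfR, nfR⟩
    · exact ⟨mgR, ngR⟩
    · exact ⟨monic_X_sub_C η, natDegree_X_sub_C η⟩
  · -- the bound
    obtain ⟨C3, hC3, g3⟩ := hom_le (R := A[X]) (K := K) (IsFractionRing.injective A[X] K) htr.le
    refine ⟨C3 * cw n, 1, mul_nonneg hC3 (cw_nonneg n), one_ne_zero, fun F _ _ _ ψ => ?_⟩
    let _ := Fintype.ofFinite F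
    have hfX : Finite (A[X] →+* F) := inferInstance
    let _ := Fintype.ofFinite (A[X] →+* F)
    rw [sR_eq]
    refine (abs_sum_le_sum_abs _ _).trans ?_
    calc _ ≤ ∑ φ' : A[X] →+* F, cw n := by
          refine sum_le_sum fun φ' _ => ?_
          split_ifs
          · refine tw_bound hn _ ?_ ?_
            · show ((fA.map C).map φ').Monic ∧ ((fA.map C).map φ').natDegree = n
              exact ⟨(mf.map _).map _, by rw [(mf.map _).natDegree_map, mf.natDegree_map, nf]⟩
            · show ((gA.map C).map φ').Monic ∧ ((gA.map C).map φ').natDegree = n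
              exact ⟨(mg.map _).map _, by rw [(mg.map _).natDegree_map, mg.natDegree_map, ng]⟩
          · rw [abs_zero]
            exact cw_nonneg n
      _ = (Nat.card (A[X] →+* F) : ℝ) * cw n := by
          rw [sum_const, card_univ, nsmul_eq_mul, Nat.card_eq_fintype_card]
      _ ≤ (C3 * (Nat.card F : ℝ) ^ (d + 1)) * cw n :=
          mul_le_mul_of_nonneg_right (g3 F) (cw_nonneg n)
      _ = _ := by ring

end

end Pool.Agent.U437.JS
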