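import Pool.Agent.U437.JS.Roots
import Pool.Agent.Y287.SZ.Weil

/-!
# The traces on `H²` as a weight, and their sums over the line
-/

set_option autoImplicit false
set_option linter.all false
set_option maxHeartbeats 1000000

open Polynomial Finset NumberField

namespace Pool.Agent.U437.JS

open Pool.Agent.R410.NG
open Pool.Agent.Y287.SZ.W (CopG)

section
variable {F : Type} [Field F] [Fintype F]

theorem norm_le_one' (χ : MulChar F ℂ) (x : F) : ‖χ x‖ ≤ 1 := by
  classical
  by_cases h : IsUnit x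
  · obtain ⟨u, rfl⟩ := h
    have h1 : (χ u) ^ (Fintype.card Fˣ) = 1 := by
      rw [← map_pow, ← Units.val_pow_eq_pow_val, pow_card_eq_one]
      simp
    have h2 : ‖χ u‖ ^ (Fintype.card Fˣ) = 1 := by rw [← norm_pow, h1, norm_one]
    exact ((pow_eq_one_iff_of_nonneg (norm_nonneg _) Fintype.card_ne_zero).1 h2).le
  · rw [χ.map_nonunit h, norm_zero]
    exact zero_le_one

theorem sq1 : (1 : ℝ) ≤ √(Fintype.card F : ℝ) := by
  refine Real.one_le_sqrt.2 ?_
  exact_mod_cast Fintype.card_pos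

theorem card3 {χ : MulChar F ℂ} (hχ : χ ≠ 1) : 3 ≤ Fintype.card F := by
  classical
  by_contra h
  have h1 : 1 < Fintype.card F := Fintype.one_lt_card
  have h2 : Fintype.card F = 2 := by omega
  have h3 := MulChar.orderOf_dvd_card_sub_one (F := F) χ
  rw [h2] at h3
  exact hχ (orderOf_eq_one_iff.1 (Nat.dvd_one.1 h3))

open Classical in
theorem mm_bound {f : F[X]} (hs : f.Separable) {n : ℕ} (hn : n ≠ 0) (hfn : f.natDegree = n)
    {χ : MulChar F ℂ} (hχ : χ ≠ 1) : ‖mm f χ‖ ≤ (n + 1) * √(Fintype.card F : ℝ) := by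
  have h1 := Pool.Agent.R318.ST.weil_sf (card3 hχ) χ hχ f hs.squarefree (by omega)
  unfold mm
  refine (norm_add_le _ _).trans ?_
  rw [norm_one]
  rw [hfn] at h1
  have h2 := sq1 (F := F)
  linarith

theorem trn_bound {f g : F[X]} (hs : f.Separable) (hsg : g.Separable) {n : ℕ} (hn : n ≠ 0)
    (hfn : f.natDegree = n) (hgn : g.natDegree = n) (a : F) :
    ‖trn F n a f g‖ ≤ n * (n + 1) ^ 2 * (Fintype.card F : ℝ) := by
  classical
  rw [trn_eq]
  have hq : (0 : ℝ) ≤ (Fintype.card F : ℝ) := Nat.cast_nonneg _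
  have h1 : ∀ χ ∈ (Gn F n).erase 1, ‖χ a * (mm f χ * mm g χ⁻¹)‖ ≤
      (n + 1) ^ 2 * (Fintype.card F : ℝ) := by
    intro χ hχ
    have h2 : χ ≠ 1 := (mem_erase.1 hχ).1
    have h3 : χ⁻¹ ≠ 1 := inv_ne_one.2 h2
    rw [norm_mul, norm_mul]
    calc ‖χ a‖ * (‖mm f χ‖ * ‖mm g χ⁻¹‖) ≤
        1 * (((n + 1) * √(Fintype.card F : ℝ)) * ((n + 1) * √(Fintype.card F : ℝ))) := by
          refine mul_le_mul (norm_le_one' _ _) ?_ (by positivity) zero_le_one
          exact mul_le_mul (mm_bound hs hn hfn h2) (mm_bound hsg hn hgn h3) (norm_nonneg _)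
            (by positivity)
      _ = (n + 1) ^ 2 * (√(Fintype.card F : ℝ) * √(Fintype.card F : ℝ)) := by ring
      _ = _ := by rw [Real.mul_self_sqrt hq]
  refine (norm_sum_le_of_le _ h1).trans ?_
  rw [sum_const, nsmul_eq_mul]
  have h4 : (((Gn F n).erase 1).card : ℝ) ≤ n := by
    have h5 := card_Gn (F := F) (Nat.pos_of_ne_zero hn)
    have h6 := Finset.card_erase_le (s := Gn F n) (a := 1)
    exact_mod_cast (le_trans (by convert h6) h5)
  calc _ ≤ (n : ℝ) * ((n + 1) ^ 2 * (Fintype.card F : ℝ)) :=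
        mul_le_mul_of_nonneg_right h4 (by positivity)
    _ = _ := by ring

open Classical in
/-- a root of multiplicity prime to `t` -/
theorem copG_of {π ρ : F[X]} (hs : π.Separable) (hd : π.natDegree ≠ 0) (hρ : ρ.Monic)
    (hc : IsCoprime π ρ) {e t : ℕ} (het : Nat.Coprime e t) : CopG t (π ^ e * ρ) := by
  have hπ0 : π ≠ 0 := hs.ne_zero
  have hdeg : (π.map (algebraMap F (AlgebraicClosure F))).degree ≠ 0 := by
    rw [degree_map, degree_eq_natDegree hπ0]
    exact_mod_cast hd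
  obtain ⟨v, hv⟩ := IsAlgClosed.exists_root _ hdeg
  refine ⟨AlgebraicClosure F, inferInstance, inferInstance, algebraMap _ _, v, ?_⟩
  have h1 : (π.map (algebraMap F (AlgebraicClosure F))).Separable := hs.map
  have h2 := rootMultiplicity_le_one_of_separable h1 v
  have h3 : 0 < rootMultiplicity v (π.map (algebraMap F (AlgebraicClosure F))) := by
    rw [rootMultiplicity_pos h1.ne_zero]
    exact hv
  have h4 : rootMultiplicity v (π.map (algebraMap F (AlgebraicClosure F))) = 1 := by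
    omega
  have h5 : rootMultiplicity v (ρ.map (algebraMap F (AlgebraicClosure F))) = 0 := by
    apply rootMultiplicity_eq_zero
    intro h6
    obtain ⟨a, b, hab⟩ := hc
    have h7 := congrArg (fun p => (p.map (algebraMap F (AlgebraicClosure F))).eval v) hab
    simp only [Polynomial.map_add, Polynomial.map_mul, eval_add, eval_mul, Polynomial.map_one,
      eval_one] at h7
    rw [show eval v (π.map (algebraMap F (AlgebraicClosure F))) = 0 from hv,
      show eval v (ρ.map (algebraMap F (AlgebraicClosure F))) = 0 from h6, mul_zero, mul_zero,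
      add_zero] at h7
    exact zero_ne_one h7
  have hρ0 : ρ.map (algebraMap F (AlgebraicClosure F)) ≠ 0 := (hρ.map _).ne_zero
  rw [Polynomial.map_mul, Polynomial.map_pow,
    rootMultiplicity_mul (mul_ne_zero (pow_ne_zero _ h1.ne_zero) hρ0), h5, add_zero,
    ← count_roots, roots_pow, Multiset.count_nsmul, count_roots, h4, mul_one]
  exact het

theorem line_char {n : ℕ} (hn : n ≠ 0) {π ρ : F[X]} (hπ : π.Monic) (hs : π.Separable)
    (hd : π.natDegree ≠ 0) (hρ : ρ.Monic) (hc : IsCoprime π ρ) {e : ℕ} (hen : Nat.Coprime e n)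
    (c : F) {χ : MulChar F ℂ} (hχ : χ ≠ 1) (hχn : χ ^ n = 1) :
    ‖∑ w : F, χ ((C c * (π ^ e * ρ)).eval w)‖ ≤
      ((π ^ e * ρ).natDegree : ℝ) * √(Fintype.card F : ℝ) := by
  classical
  have ht0 : orderOf χ ∣ n := orderOf_dvd_of_pow_eq_one hχn
  have ht1 : orderOf χ ≠ 0 := fun h => hn (Nat.eq_zero_of_zero_dvd (h ▸ ht0))
  have ht2 : orderOf χ ≠ 1 := fun h => hχ (orderOf_eq_one_iff.1 h)
  have h1 := Pool.Agent.Y287.SZ.W.weil (orderOf χ) (by omega) (MulChar.orderOf_dvd_card_sub_one (F := F) χ) χ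
    hχ (pow_orderOf_eq_one χ) (π ^ e * ρ) 1 ((hπ.pow _).mul hρ) monic_one (by
      rw [one_pow, mul_one]
      exact copG_of hs hd hρ hc (hen.coprime_dvd_right ht0))
  rw [natDegree_one, add_zero] at h1
  have h2 : ∑ w : F, χ ((C c * (π ^ e * ρ)).eval w) =
      χ c * ∑ w : F, χ ((π ^ e * ρ).eval w) * (starRingEnd ℂ) (χ ((1 : F[X]).eval w)) := by
    rw [mul_sum]
    refine sum_congr rfl fun w _ => ?_
    rw [eval_one, map_one, map_one, mul_one, eval_mul, eval_C, map_mul]
  rw [h2, norm_mul]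
  calc _ ≤ 1 * (((π ^ e * ρ).natDegree : ℝ) * √(Fintype.card F : ℝ)) :=
        mul_le_mul (norm_le_one' _ _) h1 (norm_nonneg _) zero_le_one
    _ = _ := one_mul _

end

open Classical in
/-- the trace divided by `q` -/
noncomputable def tw (n : ℕ) : Wt (Fin 3) := fun F _ p =>
  if (p 0).Separable ∧ (p 1).Separable ∧ (p 2).coeff 0 ≠ 0 then
    ((sol n (-(p 2).coeff 0) (p 0) (p 1) : ℝ) / ((Nat.card F : ℝ) - 1) - 1 -
      (Nat.card F : ℝ) ^ 2) / (Nat.card F : ℝ)
  else 0

/-- the main part of the trace -/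
noncomputable def m0 {F : Type} [Field F] (f g : F[X]) : ℝ := 2 + nr f * nr g - nr f - nr g

theorem tw_eq {F : Type} [Field F] [Fintype F] {n : ℕ} (hn : n ≠ 0) (p : Fin 3 → F[X])
    (h0 : (p 0).Monic ∧ (p 0).natDegree = n) (h1 : (p 1).Monic ∧ (p 1).natDegree = n)
    (hs : (p 0).Separable ∧ (p 1).Separable ∧ (p 2).coeff 0 ≠ 0) :
    tw n F p = m0 (p 0) (p 1) +
      (trn F n (-(p 2).coeff 0) (p 0) (p 1)).re / (Fintype.card F : ℝ) := by
  classical
  unfold tw
  rw [if_pos hs]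
  have ha : -(p 2).coeff 0 ≠ 0 := neg_ne_zero.2 hs.2.2
  have h2 := trace_eq hn ha h0.1 h1.1 h0.2 h1.2
  have hq : (Fintype.card F : ℝ) ≠ 0 := by exact_mod_cast Fintype.card_ne_zero
  have h3 := congrArg Complex.re h2
  rw [Nat.card_eq_fintype_card]
  have e1 : ((sol n (-(p 2).coeff 0) (p 0) (p 1) : ℂ) / ((Fintype.card F : ℂ) - 1) - 1 -
      (Fintype.card F : ℂ) ^ 2).re = (sol n (-(p 2).coeff 0) (p 0) (p 1) : ℝ) /
        ((Fintype.card F : ℝ) - 1) - 1 - (Fintype.card F : ℝ) ^ 2 := by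
    have : ((sol n (-(p 2).coeff 0) (p 0) (p 1) : ℂ) / ((Fintype.card F : ℂ) - 1) - 1 -
      (Fintype.card F : ℂ) ^ 2) = (((sol n (-(p 2).coeff 0) (p 0) (p 1) : ℝ) /
        ((Fintype.card F : ℝ) - 1) - 1 - (Fintype.card F : ℝ) ^ 2 : ℝ) : ℂ) := by
      push_cast
      rfl
    rw [this, Complex.ofReal_re]
  have e2 : ((Fintype.card F : ℂ) * (2 + nr (p 0) * nr (p 1) - nr (p 0) - nr (p 1)) +
      trn F n (-(p 2).coeff 0) (p 0) (p 1)).re = (Fintype.card F : ℝ) * m0 (p 0) (p 1) +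
        (trn F n (-(p 2).coeff 0) (p 0) (p 1)).re := by
    have : ((Fintype.card F : ℂ) * (2 + nr (p 0) * nr (p 1) - nr (p 0) - nr (p 1))) =
        (((Fintype.card F : ℝ) * m0 (p 0) (p 1) : ℝ) : ℂ) := by
      unfold m0
      push_cast
      rfl
    rw [this, Complex.add_re, Complex.ofReal_re]
  rw [e1, e2] at h3
  rw [h3]
  field_simp

/-- the bound of the weight -/
noncomputable def cw (n : ℕ) : ℝ := (2 + n ^ 2 + 2 * n) + n * (n + 1) ^ 2

theorem cw_nonneg (n : ℕ) : 0 ≤ cw n := by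
  unfold cw
  positivity

theorem m0_bound {F : Type} [Field F] [Finite F] {n : ℕ} {f g : F[X]} (hf : f.Monic) (hg : g.Monic)
    (hfn : f.natDegree = n) (hgn : g.natDegree = n) : |m0 f g| ≤ 2 + n ^ 2 + 2 * n := by
  have h1 : (nr f : ℝ) ≤ n := by
    have := nr_le hf
    rw [hfn] at this
    exact_mod_cast this
  have h2 : (nr g : ℝ) ≤ n := by
    have := nr_le hg
    rw [hgn] at this
    exact_mod_cast this
  have h3 : (0 : ℝ) ≤ nr f := Nat.cast_nonneg _
  have h4 : (0 : ℝ) ≤ nr g := Nat.cast_nonneg _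
  have h5 : (0 : ℝ) ≤ n := Nat.cast_nonneg _
  unfold m0
  rw [abs_le]
  constructor <;> nlinarith

theorem tw_bound {F : Type} [Field F] [Finite F] {n : ℕ} (hn : n ≠ 0) (p : Fin 3 → F[X])
    (h0 : (p 0).Monic ∧ (p 0).natDegree = n) (h1 : (p 1).Monic ∧ (p 1).natDegree = n) :
    |tw n F p| ≤ cw n := by
  classical
  let _ := Fintype.ofFinite F
  by_cases hs : (p 0).Separable ∧ (p 1).Separable ∧ (p 2).coeff 0 ≠ 0
  · rw [tw_eq hn p h0 h1 hs]
    have e1 := m0_bound h0.1 h1.1 h0.2 h1.2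
    have e2 := trn_bound hs.1 hs.2.1 hn h0.2 h1.2 (-(p 2).coeff 0)
    have hq : (0 : ℝ) < (Fintype.card F : ℝ) := by exact_mod_cast Fintype.card_pos
    have e3 : |(trn F n (-(p 2).coeff 0) (p 0) (p 1)).re / (Fintype.card F : ℝ)| ≤
        n * (n + 1) ^ 2 := by
      rw [abs_div, abs_of_pos hq, div_le_iff₀ hq]
      exact (Complex.abs_re_le_norm _).trans e2
    unfold cw
    exact (abs_add_le _ _).trans (add_le_add e1 e3)
  · unfold tw
    rw [if_neg hs, abs_zero]
    exact cw_nonneg n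

theorem sol_iso {F F' : Type} [Field F] [Field F'] (e : F ≃+* F') (n : ℕ) (a : F) (f g : F[X]) :
    sol n (e a) (f.map (e : F →+* F')) (g.map (e : F →+* F')) = sol n a f g := by
  unfold sol
  symm
  let E : (F × F) × (F × F) ≃ (F' × F') × (F' × F') :=
    (e.toEquiv.prodCongr e.toEquiv).prodCongr (e.toEquiv.prodCongr e.toEquiv)
  refine Nat.card_congr (Equiv.subtypeEquiv E fun x => ?_)
  have h1 : E x ≠ 0 ↔ x ≠ 0 := by
    have h2 : E 0 = 0 := by
      show ((e 0, e 0), (e 0, e 0)) = 0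
      rw [map_zero]
      rfl
    rw [not_iff_not]
    constructor
    · intro h
      exact E.injective (h.trans h2.symm)
    · rintro rfl
      exact h2
  have h3 : ∀ (f : F[X]) (x y : F), bf n (f.map (e : F →+* F')) (e x) (e y) = e (bf n f x y) :=
    fun f x y => bf_map (e : F →+* F') n f x y
  have h4 : (e a * bf n (f.map (e : F →+* F')) (E x).1.1 (E x).1.2 =
      bf n (g.map (e : F →+* F')) (E x).2.1 (E x).2.2) ↔
      a * bf n f x.1.1 x.1.2 = bf n g x.2.1 x.2.2 := by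
    show (e a * bf n (f.map (e : F →+* F')) (e x.1.1) (e x.1.2) =
      bf n (g.map (e : F →+* F')) (e x.2.1) (e x.2.2)) ↔ _
    rw [h3, h3, ← map_mul]
    exact e.injective.eq_iff
  rw [h1, h4]

theorem isWt_tw {n : ℕ} (hn : n ≠ 0) : IsWt (tw n) ![n, n, 1] (cw n) where
  c0 := cw_nonneg n
  iso := fun F F' _ _ e p => by
    classical
    unfold tw
    have h1 : ((p 2).map (e : F →+* F')).coeff 0 = e ((p 2).coeff 0) := coeff_map _ _
    have h2 : sol n (-((p 2).map (e : F →+* F')).coeff 0) ((p 0).map (e : F →+* F'))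
        ((p 1).map (e : F →+* F')) = sol n (-(p 2).coeff 0) (p 0) (p 1) := by
      rw [h1, ← map_neg]
      exact sol_iso e n _ _ _
    have h3 : Nat.card F' = Nat.card F := Nat.card_congr e.symm.toEquiv
    have h4 : (((p 0).map (e : F →+* F')).Separable ∧ ((p 1).map (e : F →+* F')).Separable ∧
        ((p 2).map (e : F →+* F')).coeff 0 ≠ 0) ↔
        ((p 0).Separable ∧ (p 1).Separable ∧ (p 2).coeff 0 ≠ 0) := by
      rw [separable_map, separable_map, h1, map_ne_zero_iff e e.injective]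
    rw [h2, h3]
    by_cases h5 : ((p 0).Separable ∧ (p 1).Separable ∧ (p 2).coeff 0 ≠ 0)
    · rw [if_pos h5, if_pos (h4.2 h5)]
    · rw [if_neg h5, if_neg (fun h => h5 (h4.1 h))]
  bound := fun F _ _ p hp =>
    (tw_bound hn p (hp 0) (hp 1)).trans (le_mul_of_one_le_right (cw_nonneg n) (one_le_sq F))

/-- the family over the line -/
noncomputable def fam {R : Type} [CommRing R] (f g : R[X]) (a : R) : Fin 3 → R[X] := ![f, g, X - C a]

/-- **The sum over the line.** -/
theorem line_sum {F : Type} [Field F] [Fintype F] {n : ℕ} (hn : n ≠ 0) {f g π ρ : F[X]}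
    (hf : f.Monic) (hfn : f.natDegree = n) (hfs : f.Separable) (hg : g.Monic) (hgn : g.natDegree = n)
    (hgs : g.Separable) (hπ : π.Monic) (hs : π.Separable)
    (hd : π.natDegree ≠ 0) (hρ : ρ.Monic) (hc : IsCoprime π ρ) {e : ℕ} (hen : Nat.Coprime e n)
    {c : F} (hc0 : c ≠ 0) :
    |∑ w : F, tw n F (fam f g ((C c * (π ^ e * ρ)).eval w)) - (Fintype.card F : ℝ) * m0 f g| ≤
      ((π ^ e * ρ).natDegree : ℝ) * cw n * √(Fintype.card F : ℝ) := by
  classical
  set q : ℝ := (Fintype.card F : ℝ) with hq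
  have hq0 : 0 < q := by
    rw [hq]
    exact_mod_cast Fintype.card_pos
  set D : ℕ := (π ^ e * ρ).natDegree with hD
  set h : F[X] := C c * (π ^ e * ρ) with hh
  have hmon : (π ^ e * ρ).Monic := (hπ.pow _).mul hρ
  have hh0 : h ≠ 0 := mul_ne_zero (C_ne_zero.2 hc0) hmon.ne_zero
  have hhd : h.natDegree = D := natDegree_C_mul hc0
  -- the values
  have e1 : ∀ w : F, tw n F (fam f g (h.eval w)) =
      m0 f g - (if h.eval w = 0 then m0 f g else 0) + (trn F n (h.eval w) f g).re / q := by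
    intro w
    by_cases hw : h.eval w = 0
    · rw [if_pos hw, sub_self, zero_add, hw]
      have h1 : trn F n 0 f g = 0 := by
        rw [trn_eq]
        refine sum_eq_zero fun χ _ => ?_
        rw [MulChar.map_zero, zero_mul]
      rw [h1, Complex.zero_re, zero_div]
      unfold tw
      rw [if_neg]
      rintro ⟨-, -, h3⟩
      apply h3
      show (X - C (0 : F) : F[X]).coeff 0 = 0
      simp
    · rw [if_neg hw, sub_zero]
      have h1 : (X - C (h.eval w) : F[X]).coeff 0 = -(h.eval w) := by simp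
      have h2 := tw_eq hn (fam f g (h.eval w)) ⟨hf, hfn⟩ ⟨hg, hgn⟩ ⟨hfs, hgs, by
        show (X - C (h.eval w) : F[X]).coeff 0 ≠ 0
        rw [h1]
        exact neg_ne_zero.2 hw⟩
      rw [h2]
      show m0 f g + (trn F n (-(X - C (h.eval w) : F[X]).coeff 0) f g).re / (Fintype.card F : ℝ) = _
      rw [h1, neg_neg]
  rw [sum_congr rfl fun w _ => e1 w, sum_add_distrib, sum_sub_distrib, sum_const, card_univ,
    nsmul_eq_mul, ← hq]
  -- the zeros
  have e2 : |∑ w : F, (if h.eval w = 0 then m0 f g else 0)| ≤ D * (2 + n ^ 2 + 2 * n) := by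
    rw [← sum_filter, sum_const, nsmul_eq_mul, abs_mul, abs_of_nonneg (Nat.cast_nonneg _)]
    refine mul_le_mul ?_ (m0_bound hf hg hfn hgn) (abs_nonneg _) (Nat.cast_nonneg _)
    have h1 : (univ.filter fun w : F => h.eval w = 0) ⊆ h.roots.toFinset := by
      intro x hx
      rw [Multiset.mem_toFinset, mem_roots hh0]
      exact (mem_filter.1 hx).2
    have h2 := (card_le_card h1).trans ((Multiset.toFinset_card_le _).trans (card_roots' _))
    rw [hhd] at h2
    exact_mod_cast h2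
  -- the characters
  have e3 : ‖∑ w : F, trn F n (h.eval w) f g‖ ≤ n * (n + 1) ^ 2 * D * q * √q := by
    have h1 : ∑ w : F, trn F n (h.eval w) f g =
        ∑ χ ∈ (Gn F n).erase 1, (∑ w : F, χ (h.eval w)) * (mm f χ * mm g χ⁻¹) := by
      simp only [trn_eq]
      rw [sum_comm]
      refine sum_congr rfl fun χ _ => ?_
      rw [sum_mul]
    rw [h1]
    have h2 : ∀ χ ∈ (Gn F n).erase 1, ‖(∑ w : F, χ (h.eval w)) * (mm f χ * mm g χ⁻¹)‖ ≤
        (D * √q) * ((n + 1) ^ 2 * q) := by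
      intro χ hχ
      have h2 : χ ≠ 1 := (mem_erase.1 hχ).1
      have h3 : χ⁻¹ ≠ 1 := inv_ne_one.2 h2
      have h4 : χ ^ n = 1 := mem_Gn.1 (mem_erase.1 hχ).2
      rw [norm_mul, norm_mul]
      refine mul_le_mul (line_char hn hπ hs hd hρ hc hen c h2 h4) ?_ (by positivity) (by positivity)
      calc ‖mm f χ‖ * ‖mm g χ⁻¹‖ ≤ ((n + 1) * √q) * ((n + 1) * √q) :=
            mul_le_mul (mm_bound hfs hn hfn h2) (mm_bound hgs hn hgn h3) (norm_nonneg _)
              (by positivity)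
        _ = (n + 1) ^ 2 * (√q * √q) := by ring
        _ = _ := by rw [Real.mul_self_sqrt hq0.le]
    refine (norm_sum_le_of_le _ h2).trans ?_
    rw [sum_const, nsmul_eq_mul]
    have h4 : (((Gn F n).erase 1).card : ℝ) ≤ n := by
      have h5 := card_Gn (F := F) (Nat.pos_of_ne_zero hn)
      have h6 := Finset.card_erase_le (s := Gn F n) (a := 1)
      exact_mod_cast (le_trans (by convert h6) h5)
    calc _ ≤ (n : ℝ) * ((D * √q) * ((n + 1) ^ 2 * q)) :=
          mul_le_mul_of_nonneg_right h4 (by positivity)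
      _ = _ := by ring
  have e4 : |∑ w : F, (trn F n (h.eval w) f g).re / q| ≤ n * (n + 1) ^ 2 * D * √q := by
    rw [← sum_div, abs_div, abs_of_pos hq0, div_le_iff₀ hq0]
    have h1 : ∑ w : F, (trn F n (h.eval w) f g).re = (∑ w : F, trn F n (h.eval w) f g).re := by
      rw [Complex.re_sum]
    rw [h1]
    refine (Complex.abs_re_le_norm _).trans (e3.trans (le_of_eq ?_))
    ring
  have hs1 : 1 ≤ √q := sq1 (F := F)
  have e5 : |∑ w : F, (if h.eval w = 0 then m0 f g else 0)| ≤ D * (2 + n ^ 2 + 2 * n) * √q :=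
    e2.trans (le_mul_of_one_le_right (by positivity) hs1)
  have e6 : q * m0 f g - ∑ w : F, (if h.eval w = 0 then m0 f g else 0) +
      ∑ w : F, (trn F n (h.eval w) f g).re / q - q * m0 f g =
      -(∑ w : F, (if h.eval w = 0 then m0 f g else 0)) +
      ∑ w : F, (trn F n (h.eval w) f g).re / q := by ring
  rw [e6]
  refine (abs_add_le _ _).trans ?_
  rw [abs_neg]
  unfold cw
  calc _ ≤ D * (2 + n ^ 2 + 2 * n) * √q + n * (n + 1) ^ 2 * D * √q := add_le_add e5 e4
    _ = _ := by ring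

end Pool.Agent.U437.JS
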